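import Mathlib

open Cardinal

namespace Pool.Agent.NH90.BS

/-- The nodes of the tree `ω^{<ω}` of all finite sequences of natural numbers. -/
abbrev Node : Type := List ℕ

/-- `f ≤* g`: `f s ≤ g s` for all but finitely many `s`. -/
def LeStar (f g : Node → ℕ) : Prop := {s : Node | ¬ f s ≤ g s}.Finite

/-- Increasing functions on `ω^{<ω}`. -/
def Increasing (f : Node → ℕ) : Prop :=
  (∀ s t : Node, s <+: t → s ≠ t → f s < f t) ∧
    ∀ (s : Node) (n m : ℕ), n < m → f (s ++ [n]) < f (s ++ [m])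

/-- The bounding number `𝔟`: the least size of a family of functions from `ℕ` to `ℕ` which is
unbounded under eventual domination. -/
noncomputable def bNum : Cardinal.{0} :=
  sInf {κ | ∃ F : Set (ℕ → ℕ), #F = κ ∧ ¬ ∃ g : ℕ → ℕ, ∀ f ∈ F, {n | ¬ f n ≤ g n}.Finite}

/-- `B` is a `𝔟`-scale: its members are increasing, it is unbounded, it is well-ordered by `≤*`
with order type `𝔟`, and for every `n` its members `f` with `f(∅) > n` are cofinal. -/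
structure IsBScale (B : Set (Node → ℕ)) : Prop where
  incr : ∀ f ∈ B, Increasing f
  unb : ¬ ∃ g : Node → ℕ, ∀ f ∈ B, LeStar f g
  order : ∃ φ : bNum.ord.ToType ≃ B, ∀ i j, i ≤ j ↔ LeStar (φ i).1 (φ j).1
  big : ∀ n : ℕ, ∀ g ∈ B, ∃ f ∈ B, LeStar g f ∧ n < f []

/-- `B` is unbounded on every infinite set of nodes. -/
def UnboundedEverywhere (B : Set (Node → ℕ)) : Prop :=
  ∀ X : Set Node, X.Infinite → ¬ ∃ g : Node → ℕ, ∀ f ∈ B, {s ∈ X | ¬ f s ≤ g s}.Finite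

/-- The tree `U(f)`: all `s` with `s(i) ≠ f(s ↾ i)` for all `i < |s|`. -/
def U (f : Node → ℕ) : Set Node := {s | ∀ i, ∀ h : i < s.length, s[i] ≠ f (s.take i)}

/-- The set `⟨s⟩` of all extensions of `s`. -/
def cone (s : Node) : Set Node := {t | s <+: t}

/-- The topology of the Dow space of `B`. -/
def dowTop (B : Set (Node → ℕ)) : TopologicalSpace Node :=
  TopologicalSpace.generateFrom
    ({V | ∃ s, V = cone s} ∪ {V | ∃ s, V = (cone s)ᶜ} ∪ {V | ∃ f ∈ B, V = U f})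

/-- The Dow space of `B` is Fréchet-Urysohn. -/
def Frechet (B : Set (Node → ℕ)) : Prop := @FrechetUrysohnSpace Node (dowTop B)

/-- code of a reversed node -/
def cr : List ℕ → ℕ
  | [] => 0
  | n :: l => Nat.pair (cr l) n + 1

/-- an injective code of nodes, increasing along the tree -/
def cd (s : Node) : ℕ := cr s.reverse

/-- For a node `t` with initial segment `x = t ↾ j`: if `x ∈ U(e ∘ cd)` then `t ∈ U(e ∘ cd)`. -/
def Av (e : ℕ → ℕ) (k : ℕ × Node) : Prop :=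
  (∀ i, i < k.1 → ∀ h : i < k.2.length, ¬ e (cd (k.2.take i)) = k.2[i]) →
    ∀ i, ∀ h : i < k.2.length, ¬ e (cd (k.2.take i)) = k.2[i]

/-- The combinatorial hypothesis, for a well-ordered set `W` and `γ₀ : W`. -/
def Hyp (W : Type) [LinearOrder W] (γ₀ : W) : Prop :=
  (∃ e : W → ℕ → ℕ,
    ((∀ β n m, n < m → e β n < e β m) ∧
    (∀ β α, β < α → ∃ N, ∀ n, N ≤ n → e β n < e α n) ∧
    (∀ g : ℕ → ℕ, ∃ α, ∀ N, ∃ n, N ≤ n ∧ g n < e α n) ∧
    (∀ n α, ∃ α', α ≤ α' ∧ n < e α' 0)) ∧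
    ∀ (γ : W) (A : ℕ × Node → Prop),
      (∀ (F : Finset {β : W // β < γ}) (N : ℕ), ∃ k : ℕ × Node, N ≤ k.2.getD k.1 0 ∧ A k ∧
        ∀ β ∈ F, Av (e β) k) →
      ∃ g : ℕ → ℕ × Node, (∀ n, n ≤ (g n).2.getD (g n).1 0 ∧ A (g n)) ∧
        ∀ β : {β : W // β < γ}, ∃ N, ∀ n, N ≤ n → Av (e β) (g n)) ∧
  (∀ (γ : W) (g : {β : W // β < γ} → ℕ → ℕ), ∃ h : ℕ → ℕ, ∀ β, ∃ N, ∀ n, N ≤ n → g β n ≤ h n) ∧
  ∃ T : {β : W // β < γ₀} → ℕ → Prop, (∀ i N, ∃ n, N ≤ n ∧ T i n) ∧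
    (∀ i j, i < j → ∃ N, ∀ n, N ≤ n → T j n → T i n) ∧
    ¬ ∃ Z : ℕ → Prop, (∀ N, ∃ n, N ≤ n ∧ Z n) ∧ ∀ i, ∃ N, ∀ n, N ≤ n → Z n → T i n

end Pool.Agent.NH90.BS
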