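import Pool.Agent.W684.FM.Ambient
import Pool.Agent.W910.FC.Product
import Pool.Agent.NH90.BS.Defs

/-!
# Regular sentences, and the translation of the hypothesis into the forcing language
-/

set_option autoImplicit false

namespace Pool.Agent.NH90.BS

open Cardinal Pool.Agent.Helper669.Forcing Pool.Agent.W684.FM Pool.Agent.W910.FC

universe u v w

section

variable {P : Type u} [Preorder P]

/-- sets of conditions which are closed downwards and contain all conditions below which they are
dense -/
def Reg (φ : Set P) : Prop := Down φ ∧ ∀ p, (∀ q ≤ p, ∃ r ≤ q, r ∈ φ) → p ∈ φ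

theorem reg_fnot {φ : Set P} (h : Down φ) : Reg (fnot φ) := by
  refine ⟨down_fnot φ, fun p hp q hq hqφ => ?_⟩
  obtain ⟨r, hr, hr'⟩ := hp q hq
  exact hr' r le_rfl (h q hqφ r hr)

theorem reg_fand {φ ψ : Set P} (h : Reg φ) (h' : Reg ψ) : Reg (fand φ ψ) :=
  ⟨down_fand h.1 h'.1, fun p hp => ⟨h.2 p fun q hq => (hp q hq).imp fun _ h => ⟨h.1, h.2.1⟩,
    h'.2 p fun q hq => (hp q hq).imp fun _ h => ⟨h.1, h.2.2⟩⟩⟩

theorem reg_fall {ι : Sort v} {φ : ι → Set P} (h : ∀ i, Reg (φ i)) : Reg (fall φ) :=
  ⟨down_fall fun i => (h i).1, fun p hp i => (h i).2 p fun q hq =>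
    (hp q hq).imp fun _ h => ⟨h.1, h.2 i⟩⟩

theorem reg_fex {ι : Sort v} (φ : ι → Set P) : Reg (fex φ) :=
  reg_fnot (down_fall fun _ => down_fnot _)

theorem reg_fimp {φ : Set P} (h : Down φ) (ψ : Set P) : Reg (fimp φ ψ) :=
  reg_fnot (down_fand h (down_fnot ψ))

theorem reg_fground (h : Prop) : Reg (fground (P := P) h) :=
  ⟨down_fground h, fun p hp => by
    obtain ⟨_, _, h⟩ := hp p le_rfl
    exact h⟩

theorem reg_meets (N : Set P) : Reg (meets N) := by
  refine ⟨down_meets N, fun p hp q hq => ?_⟩
  obtain ⟨r, hr, hr'⟩ := hp q hq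
  obtain ⟨s, hs, t, ht, hst⟩ := hr' r le_rfl
  exact ⟨s, hs.trans hr, t, ht, hst⟩

theorem meets_reg {φ : Set P} (h : Reg φ) : meets φ = φ := by
  ext p
  refine ⟨fun hp => h.2 p fun q hq => ?_, fun hp => meets_of_mem hp⟩
  obtain ⟨r, hr, s, hs, hrs⟩ := hp q hq
  exact ⟨r, hr, h.1 s hs r hrs⟩

theorem mem_fimp_reg {φ ψ : Set P} (hφ : Down φ) (hψ : Reg ψ) {p : P} :
    p ∈ fimp φ ψ ↔ ∀ q ≤ p, q ∈ φ → q ∈ ψ := by
  rw [mem_fimp]
  constructor
  · intro h q hq hqφ
    exact hψ.2 q fun r hr => h r (hr.trans hq) (hφ q hqφ r hr)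
  · intro h q hq hqφ
    exact ⟨q, le_rfl, h q hq hqφ⟩

theorem reg_IsFun {X : Type v} {Y : Type w} (R : X → Y → Set P) : Reg (IsFun R) :=
  reg_fand (reg_fall fun _ => reg_fex _) (reg_fall fun _ => reg_fall fun _ => reg_fall fun _ =>
    reg_fimp (down_fand (down_meets _) (down_meets _)) _)

theorem fimp_intro {φ ψ : Set P} {p : P} (h : ∀ q ≤ p, q ∈ φ → q ∈ ψ) : p ∈ fimp φ ψ :=
  mem_fimp.2 fun q hq hqφ => ⟨q, le_rfl, h q hq hqφ⟩

theorem fimp_elim {φ ψ : Set P} {p : P} (hφ : Down φ) (hψ : Reg ψ) (h : p ∈ fimp φ ψ) {q : P}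
    (hq : q ≤ p) (hqφ : q ∈ φ) : q ∈ ψ := (mem_fimp_reg hφ hψ).1 h q hq hqφ

theorem fnot_elim {φ : Set P} {p : P} (h : p ∈ fnot φ) {q : P} (hq : q ≤ p) (hqφ : q ∈ φ) :
    False := h q hq hqφ

/-- every sentence is decided by an extension -/
theorem exists_decides (φ : Set P) (p : P) : ∃ q ≤ p, q ∈ φ ∨ q ∈ fnot φ := by
  by_cases h : ∃ q ≤ p, q ∈ φ
  · obtain ⟨q, hq, h⟩ := h
    exact ⟨q, hq, Or.inl h⟩
  · push Not at h
    exact ⟨p, le_rfl, Or.inr h⟩

theorem fnot_fnot {φ : Set P} (h : Reg φ) {p : P} (hp : p ∈ fnot (fnot φ)) : p ∈ φ := by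
  apply h.2
  intro q hq
  obtain ⟨r, hr, h1⟩ := exists_decides φ q
  rcases h1 with h1 | h1
  · exact ⟨r, hr, h1⟩
  · exact absurd h1 (hp r (hr.trans hq))

/-- a sentence about the value of a named function -/
theorem val_iff {X : Type v} {Y : Type w} {f : X → Y → Set P} {p : P} (hf : p ∈ IsFun f) {x : X}
    {y : Y} (hy : p ∈ meets (f x y)) {φ : Y → Set P} (hφ : Reg (φ y)) :
    p ∈ (fall fun v => fimp (meets (f x v)) (φ v)) ↔ p ∈ φ y := by
  constructor
  · intro h
    exact fimp_elim (down_meets _) hφ (h y) le_rfl hy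
  · intro h v
    apply fimp_intro
    intro q hq hv
    have h1 := IsFun.unique (down_IsFun f p hf q hq) (down_meets _ p hy q hq) hv
    subst h1
    exact hφ.1 p h q hq

/-- the value of a named function at finitely many places can be decided -/
theorem exists_vals {I : Type v} {X : Type v} {Y : Type w} (f : I → X → Y → Set P)
    (F : Finset I) (x : X) (p : P) (hf : ∀ i ∈ F, p ∈ IsFun (f i)) [Nonempty Y] :
    ∃ q ≤ p, ∃ y : I → Y, ∀ i ∈ F, q ∈ meets (f i x (y i)) := by
  classical
  induction F using Finset.induction_on with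
  | empty => exact ⟨p, le_rfl, fun _ => Classical.arbitrary Y, by simp⟩
  | insert a s ha ih =>
    obtain ⟨q, hq, y, hy⟩ := ih fun i hi => hf i (Finset.mem_insert_of_mem hi)
    obtain ⟨r, hr, z, hz⟩ := IsFun.total (down_IsFun _ p (hf a (Finset.mem_insert_self _ _)) q hq) x
    refine ⟨r, hr.trans hq, Function.update y a z, fun i hi => ?_⟩
    rcases Finset.mem_insert.1 hi with rfl | hi
    · rw [Function.update_self]
      exact hz
    · have : i ≠ a := fun h => ha (h ▸ hi)
      rw [Function.update_of_ne this]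
      exact down_meets _ _ (hy i hi) _ hr

end

/-! ### The translation of the hypothesis -/

section

variable {P : Type} [Preorder P]

/-- The forcing version of `Av`. -/
def AvN (e : ℕ → ℕ → Set P) (k : ℕ × Node) : Set P :=
  fimp (fall fun i => fall fun _ : i < k.1 => fall fun h : i < k.2.length =>
      fnot (meets (e (cd (k.2.take i)) k.2[i])))
    (fall fun i => fall fun h : i < k.2.length => fnot (meets (e (cd (k.2.take i)) k.2[i])))

/-- `x < y` for the named numbers `x` and `y` -/
def LtN (x y : ℕ → Set P) : Set P :=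
  fall fun a => fall fun b => fimp (fand (meets (x a)) (meets (y b))) (fground (a < b))

/-- `x ≤ y` for the named numbers `x` and `y` -/
def LeN (x y : ℕ → Set P) : Set P :=
  fall fun a => fall fun b => fimp (fand (meets (x a)) (meets (y b))) (fground (a ≤ b))

/-- `n < y` for the number `n` and the named number `y` -/
def LtN' (n : ℕ) (y : ℕ → Set P) : Set P :=
  fall fun b => fimp (meets (y b)) (fground (n < b))

variable (P) in
/-- The forcing version of `Hyp`: quantifiers over functions and sets become quantifiers over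
names. -/
def HypN (W : Type) [LinearOrder W] (γ₀ : W) : Set P :=
  fand
    (fex fun e : W → ℕ → ℕ → Set P => fand (fall fun β => IsFun (e β)) <| fand
      (fand (fall fun β => fall fun n => fall fun m => fall fun _ : n < m => LtN (e β n) (e β m))
      (fand (fall fun β => fall fun α => fall fun _ : β < α => fex fun N => fall fun n =>
        fall fun _ : N ≤ n => LtN (e β n) (e α n))
      (fand (fall fun g : ℕ → ℕ → Set P => fimp (IsFun g) (fex fun α => fall fun N => fex fun n =>
        fand (fground (N ≤ n)) (LtN (g n) (e α n))))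
      (fall fun n => fall fun α => fex fun α' => fand (fground (α ≤ α')) (LtN' n (e α' 0))))))
      (fall fun γ : W => fall fun A : ℕ × Node → Set P =>
        fimp (fall fun F : Finset {β : W // β < γ} => fall fun N : ℕ => fex fun k : ℕ × Node =>
            fand (fground (N ≤ k.2.getD k.1 0)) (fand (meets (A k))
              (fall fun β : {β : W // β < γ} => fall fun _ : β ∈ F => AvN (e β) k)))
          (fex fun g : ℕ → ℕ × Node → Set P => fand (IsFun g)
            (fand (fall fun n => fall fun k => fimp (meets (g n k))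
                (fand (fground (n ≤ k.2.getD k.1 0)) (meets (A k))))
              (fall fun β : {β : W // β < γ} => fex fun N => fall fun n => fall fun _ : N ≤ n =>
                fall fun k => fimp (meets (g n k)) (AvN (e β) k))))))
    (fand
      (fall fun γ : W => fall fun g : {β : W // β < γ} → ℕ → ℕ → Set P =>
        fimp (fall fun β => IsFun (g β)) (fex fun h : ℕ → ℕ → Set P => fand (IsFun h)
          (fall fun β => fex fun N => fall fun n => fall fun _ : N ≤ n => LeN (g β n) (h n))))
      (fex fun T : {β : W // β < γ₀} → ℕ → Set P =>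
        fand (fall fun i => fall fun N => fex fun n => fand (fground (N ≤ n)) (meets (T i n)))
        (fand (fall fun i => fall fun j => fall fun _ : i < j => fex fun N => fall fun n =>
          fall fun _ : N ≤ n => fimp (meets (T j n)) (meets (T i n)))
        (fnot (fex fun Z : ℕ → Set P =>
          fand (fall fun N => fex fun n => fand (fground (N ≤ n)) (meets (Z n)))
            (fall fun i => fex fun N => fall fun n => fall fun _ : N ≤ n =>
              fimp (meets (Z n)) (meets (T i n))))))))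

theorem reg_LtN (x y : ℕ → Set P) : Reg (LtN x y) :=
  reg_fall fun _ => reg_fall fun _ => reg_fimp (down_fand (down_meets _) (down_meets _)) _

theorem reg_LeN (x y : ℕ → Set P) : Reg (LeN x y) :=
  reg_fall fun _ => reg_fall fun _ => reg_fimp (down_fand (down_meets _) (down_meets _)) _

theorem reg_LtN' (n : ℕ) (y : ℕ → Set P) : Reg (LtN' n y) :=
  reg_fall fun _ => reg_fimp (down_meets _) _

theorem reg_AvN (e : ℕ → ℕ → Set P) (k : ℕ × Node) : Reg (AvN e k) :=
  reg_fimp (down_fall fun _ => down_fall fun _ => down_fall fun _ => down_fnot _) _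

end

end Pool.Agent.NH90.BS
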