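import Pool.Agent.NH90.BS.Prod1
import Pool.Agent.NH90.BS.Sent

/-!
# A countably closed preorder which adds a maximal tower of length `ω₁`
-/

set_option autoImplicit false

namespace Pool.Agent.NH90.BS

open Cardinal Pool.Agent.Helper669.Forcing Pool.Agent.W684.FM Pool.Agent.W910.FC

/-- towers of countable length -/
structure Tow : Type where
  dom : Set Om1
  t : Om1 → Set ℕ
  low : ∀ i j, i ≤ j → j ∈ dom → i ∈ dom
  bdd : ∃ b, ∀ j ∈ dom, j < b
  inf : ∀ j ∈ dom, ∀ N, ∃ n, N ≤ n ∧ n ∈ t j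
  dec : ∀ i j, i < j → j ∈ dom → ∃ N, ∀ n, N ≤ n → n ∈ t j → n ∈ t i

instance : Preorder Tow where
  le q r := r.dom ⊆ q.dom ∧ ∀ j ∈ r.dom, q.t j = r.t j
  le_refl q := ⟨Set.Subset.refl _, fun _ _ => rfl⟩
  le_trans q r s h1 h2 := ⟨h2.1.trans h1.1, fun j hj => (h1.2 j (h2.1 hj)).trans (h2.2 j hj)⟩

theorem Tow.le_def {q r : Tow} : q ≤ r ↔ r.dom ⊆ q.dom ∧ ∀ j ∈ r.dom, q.t j = r.t j := Iff.rfl

theorem Tow.closed : ClosedSeq Tow := by
  classical
  intro C hC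
  have hanti : ∀ m n, m ≤ n → C n ≤ C m := by
    intro m n hmn
    induction n, hmn using Nat.le_induction with
    | base => exact le_rfl
    | succ n _ ih => exact (hC n).trans ih
  choose b hb using fun n => (C n).bdd
  obtain ⟨a, ha⟩ := exists_bound b
  let t : Om1 → Set ℕ := fun j => if h : ∃ n, j ∈ (C n).dom then (C h.choose).t j else ∅
  have ht : ∀ n, ∀ j ∈ (C n).dom, t j = (C n).t j := by
    intro n j hj
    have h : ∃ n, j ∈ (C n).dom := ⟨n, hj⟩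
    simp only [t, dif_pos h]
    have h1 := h.choose_spec
    rcases le_total n h.choose with h2 | h2
    · exact (hanti _ _ h2).2 j hj
    · exact ((hanti _ _ h2).2 j h1).symm
  refine ⟨⟨⋃ n, (C n).dom, t, ?_, ⟨a, ?_⟩, ?_, ?_⟩, fun n =>
    ⟨fun j hj => Set.mem_iUnion.2 ⟨n, hj⟩, ht n⟩⟩
  · intro i j hij hj
    obtain ⟨n, hn⟩ := Set.mem_iUnion.1 hj
    exact Set.mem_iUnion.2 ⟨n, (C n).low i j hij hn⟩
  · intro j hj
    obtain ⟨n, hn⟩ := Set.mem_iUnion.1 hj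
    exact (hb n j hn).trans_le (ha n)
  · intro j hj N
    obtain ⟨n, hn⟩ := Set.mem_iUnion.1 hj
    rw [ht n j hn]
    exact (C n).inf j hn N
  · intro i j hij hj
    obtain ⟨n, hn⟩ := Set.mem_iUnion.1 hj
    rw [ht n j hn, ht n i ((C n).low i j hij.le hn)]
    exact (C n).dec i j hij hn

/-- infinite sets almost contained in all members -/
theorem Tow.exists_seq (r : Tow) : ∃ x : ℕ → ℕ, StrictMono x ∧
    ∀ j ∈ r.dom, ∃ K, ∀ k, K ≤ k → x k ∈ r.t j := by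
  rcases r.dom.eq_empty_or_nonempty with h | hne
  · refine ⟨fun n => n, strictMono_id, fun j hj => ?_⟩
    rw [h] at hj
    exact absurd hj (Set.notMem_empty j)
  · obtain ⟨b, hb⟩ := r.bdd
    have hcnt : r.dom.Countable := (countable_Iio_om1 b).mono hb
    obtain ⟨e, he⟩ := hcnt.exists_eq_range hne
    have hed : ∀ n, e n ∈ r.dom := fun n => by
      rw [he]
      exact ⟨n, rfl⟩
    have key : ∀ n, ∃ j ∈ r.dom, ∃ M, ∀ k, k ≤ n → ∀ y, M ≤ y → y ∈ r.t j → y ∈ r.t (e k) := by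
      intro n
      induction n with
      | zero => exact ⟨e 0, hed 0, 0, fun k hk y _ hy => by
          rw [Nat.le_zero.1 hk]
          exact hy⟩
      | succ n ih =>
        obtain ⟨j, hj, M, hM⟩ := ih
        rcases lt_trichotomy j (e (n + 1)) with h | h | h
        · obtain ⟨N, hN⟩ := r.dec j (e (n + 1)) h (hed _)
          refine ⟨e (n + 1), hed _, max M N, fun k hk y hy hyt => ?_⟩
          rcases Nat.le_succ_iff.1 hk with hk | hk
          · exact hM k hk y ((le_max_left _ _).trans hy) (hN y ((le_max_right _ _).trans hy) hyt)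
          · rw [hk]
            exact hyt
        · refine ⟨j, hj, M, fun k hk y hy hyt => ?_⟩
          rcases Nat.le_succ_iff.1 hk with hk | hk
          · exact hM k hk y hy hyt
          · rw [hk, ← h]
            exact hyt
        · obtain ⟨N, hN⟩ := r.dec (e (n + 1)) j h hj
          refine ⟨j, hj, max M N, fun k hk y hy hyt => ?_⟩
          rcases Nat.le_succ_iff.1 hk with hk | hk
          · exact hM k hk y ((le_max_left _ _).trans hy) hyt
          · rw [hk]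
            exact hN y ((le_max_right _ _).trans hy) hyt
    have key2 : ∀ n N, ∃ y, N ≤ y ∧ ∀ k, k ≤ n → y ∈ r.t (e k) := by
      intro n N
      obtain ⟨j, hj, M, hM⟩ := key n
      obtain ⟨y, hy, hyt⟩ := r.inf j hj (max M N)
      exact ⟨y, (le_max_right _ _).trans hy, fun k hk => hM k hk y ((le_max_left _ _).trans hy) hyt⟩
    choose y hy1 hy2 using key2
    let x : ℕ → ℕ := fun n => n.rec (y 0 0) fun k z => y (k + 1) (z + 1)
    have hx1 : ∀ n, x (n + 1) = y (n + 1) (x n + 1) := fun n => rfl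
    refine ⟨x, strictMono_nat_of_lt_succ fun n => ?_, fun j hj => ?_⟩
    · rw [hx1]
      exact hy1 _ _
    · rw [he] at hj
      obtain ⟨K, rfl⟩ := hj
      refine ⟨K, fun k hk => ?_⟩
      cases k with
      | zero => exact hy2 0 0 K hk
      | succ k =>
        rw [hx1]
        exact hy2 _ _ K hk

/-- prolonging a tower by a constant -/
theorem Tow.extend (r : Tow) (i : Om1) (A : Set ℕ) (hA : ∀ N, ∃ n, N ≤ n ∧ n ∈ A)
    (hAr : ∀ j ∈ r.dom, ∃ N, ∀ n, N ≤ n → n ∈ A → n ∈ r.t j) :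
    ∃ q ≤ r, i ∈ q.dom ∧ (i ∉ r.dom → q.t i = A) := by
  classical
  obtain ⟨b, hb⟩ := r.bdd
  obtain ⟨c, hc⟩ := exists_gt_om1 i
  refine ⟨⟨r.dom ∪ Set.Iic i, fun j => if j ∈ r.dom then r.t j else A, ?_, ⟨max b c, ?_⟩, ?_, ?_⟩,
    ⟨Set.subset_union_left, fun j hj => ?_⟩, Or.inr (Set.mem_Iic.2 le_rfl), fun h => ?_⟩
  · rintro j k hjk (hk | hk)
    · exact Or.inl (r.low j k hjk hk)
    · exact Or.inr (hjk.trans hk)
  · rintro j (hj | hj)
    · exact (hb j hj).trans_le (le_max_left _ _)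
    · exact (lt_of_le_of_lt hj hc).trans_le (le_max_right _ _)
  · intro j hj N
    by_cases h : j ∈ r.dom
    · simp only [if_pos h]
      exact r.inf j h N
    · simp only [if_neg h]
      exact hA N
  · intro j k hjk hk
    by_cases h : k ∈ r.dom
    · have h' := r.low j k hjk.le h
      simp only [if_pos h, if_pos h']
      exact r.dec j k hjk h
    · simp only [if_neg h]
      by_cases h' : j ∈ r.dom
      · simp only [if_pos h']
        exact hAr j h'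
      · simp only [if_neg h']
        exact ⟨0, fun n _ hn => hn⟩
  · simp only [if_pos hj]
  · simp only [if_neg h]

theorem Tow.exists_mem (r : Tow) (i : Om1) : ∃ q ≤ r, i ∈ q.dom := by
  obtain ⟨x, hx1, hx2⟩ := r.exists_seq
  obtain ⟨q, hq, hi, _⟩ := r.extend i (Set.range x) (fun N => ⟨x N, hx1.id_le N, ⟨N, rfl⟩⟩) (by
    intro j hj
    obtain ⟨K, hK⟩ := hx2 j hj
    refine ⟨x K, ?_⟩
    rintro _ hn ⟨k, rfl⟩
    exact hK k (hx1.le_iff_le.1 hn))
  exact ⟨q, hq, hi⟩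

/-- two prolongations with disjoint last members -/
theorem Tow.exists_split (r : Tow) : ∃ (q0 q1 : Tow) (i : Om1), q0 ≤ r ∧ q1 ≤ r ∧ i ∈ q0.dom ∧
    i ∈ q1.dom ∧ ∀ n, n ∈ q0.t i → n ∉ q1.t i := by
  obtain ⟨x, hx1, hx2⟩ := r.exists_seq
  obtain ⟨b, hb⟩ := r.bdd
  have hbn : b ∉ r.dom := fun h => lt_irrefl _ (hb b h)
  have h : ∀ ε : ℕ, ε < 2 → ∃ q ≤ r, b ∈ q.dom ∧ (b ∉ r.dom → q.t b =
      Set.range fun k => x (2 * k + ε)) := by
    intro ε _
    apply r.extend b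
    · intro N
      have h1 : 2 * N + ε ≤ x (2 * N + ε) := hx1.id_le _
      exact ⟨x (2 * N + ε), by omega, ⟨N, rfl⟩⟩
    · intro j hj
      obtain ⟨K, hK⟩ := hx2 j hj
      refine ⟨x K, ?_⟩
      rintro _ hn ⟨k, rfl⟩
      exact hK _ (hx1.le_iff_le.1 hn)
  obtain ⟨q0, hq0, h1, h2⟩ := h 0 (by omega)
  obtain ⟨q1, hq1, h3, h4⟩ := h 1 (by omega)
  refine ⟨q0, q1, b, hq0, hq1, h1, h3, fun n hn hn' => ?_⟩
  rw [h2 hbn] at hn
  rw [h4 hbn] at hn'
  obtain ⟨k, rfl⟩ := hn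
  obtain ⟨k', hk'⟩ := hn'
  have := hx1.injective hk'
  omega

section Names

variable {P : Type} [Preorder P]

/-- the generic tower -/
def TN (i : Om1) (n : ℕ) : Set (Tow × P) := {s | i ∈ s.1.dom ∧ n ∈ s.1.t i}

theorem down_TN (i : Om1) (n : ℕ) : Down (TN (P := P) i n) := by
  rintro s ⟨h1, h2⟩ s' hs
  exact ⟨hs.1.1 h1, by rw [hs.1.2 i h1]; exact h2⟩

/-- membership in the generic tower is decided -/
theorem mem_TN {s : Tow × P} {i : Om1} {n : ℕ} (hi : i ∈ s.1.dom) :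
    s ∈ meets (TN i n) ↔ n ∈ s.1.t i := by
  constructor
  · intro h
    obtain ⟨s', hs', h1, h2⟩ := exists_of_meets (down_TN i n) h
    rw [hs'.1.2 i hi] at h2
    exact h2
  · intro h
    exact meets_of_mem ⟨hi, h⟩

theorem TN_inf (s : Tow × P) (i : Om1) (N : ℕ) :
    s ∈ fex fun n => fand (fground (N ≤ n)) (meets (TN i n)) := by
  rw [mem_fex]
  rintro ⟨r, p⟩ _
  obtain ⟨q, hq, hi⟩ := r.exists_mem i
  obtain ⟨n, hn, hn'⟩ := q.inf i hi N
  exact ⟨(q, p), ⟨hq, le_rfl⟩, n, hn, meets_of_mem ⟨hi, hn'⟩⟩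

theorem TN_dec (s : Tow × P) (i j : Om1) (hij : i < j) :
    s ∈ fex fun N => fall fun n => fall fun _ : N ≤ n =>
      fimp (meets (TN j n)) (meets (TN i n)) := by
  rw [mem_fex]
  rintro ⟨r, p⟩ _
  obtain ⟨q, hq, hj⟩ := r.exists_mem j
  have hi := q.low i j hij.le hj
  obtain ⟨N, hN⟩ := q.dec i j hij hj
  refine ⟨(q, p), ⟨hq, le_rfl⟩, N, fun n hn => ?_⟩
  apply fimp_intro
  intro s' hs' h
  have hj' : j ∈ s'.1.dom := hs'.1.1 hj
  have hi' : i ∈ s'.1.dom := hs'.1.1 hi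
  rw [mem_TN hj', hs'.1.2 j hj] at h
  rw [mem_TN hi', hs'.1.2 i hi]
  exact hN n hn h

theorem TN_max (hP : PCCC P) (s : Tow × P) :
    s ∈ fnot (fex fun Z : ℕ → Set (Tow × P) =>
      fand (fall fun N => fex fun n => fand (fground (N ≤ n)) (meets (Z n)))
        (fall fun i => fex fun N => fall fun n => fall fun _ : N ≤ n =>
          fimp (meets (Z n)) (meets (TN i n)))) := by
  intro s1 _ h
  obtain ⟨⟨r0, p0⟩, hs0, Z, h1, h2⟩ := mem_fex.1 h s1 le_rfl
  obtain ⟨r1, hr1, Z', hZ'⟩ := exists_names1 Tow.closed hP Z r0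
  obtain ⟨q0, q1, i, hq0, hq1, hi0, hi1, hdisj⟩ := r1.exists_split
  -- below `q0` and then below `q1`
  have key : ∀ q ≤ r1, i ∈ q.dom → ∀ p ≤ p0, ∃ p' ≤ p, ∃ N, ∀ n, N ≤ n →
      p' ∈ fimp (meets (Z' n)) (fground (n ∈ q.t i)) := by
    intro q hq hi p hp
    have h3 := down_fex _ _ (h2 i) (q, p) ⟨hq.trans hr1, hp⟩
    obtain ⟨⟨q', p'⟩, ⟨hq', hp'⟩, N, hN⟩ := mem_fex.1 h3 (q, p) le_rfl
    refine ⟨p', hp', N, fun n hn => ?_⟩
    rw [mem_fimp]
    intro u hu huZ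
    have h4 : (q', u) ∈ meets (Z n) := (hZ' n q' (le_trans hq' hq) u).2 huZ
    have h5 := fimp_elim (down_meets _) (reg_meets _) (hN n hn)
      (show ((q', u) : Tow × P) ≤ (q', p') from ⟨le_rfl, hu⟩) h4
    have hi' : i ∈ ((q', u) : Tow × P).1.dom := hq'.1 hi
    rw [mem_TN hi'] at h5
    refine ⟨u, le_rfl, ?_⟩
    rw [mem_fground, ← hq'.2 i hi]
    exact h5
  obtain ⟨p1, hp1, N0, hN0⟩ := key q0 hq0 hi0 p0 le_rfl
  obtain ⟨p2, hp2, N1, hN1⟩ := key q1 hq1 hi1 p1 hp1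
  have h6 := h1 (max N0 N1)
  obtain ⟨⟨r3, p3⟩, ⟨hr3, hp3⟩, n, hn, h7⟩ := mem_fex.1 h6 (r1, p2) ⟨hr1, hp2.trans hp1⟩
  have hn' : max N0 N1 ≤ n := hn
  have h8 : p3 ∈ meets (Z' n) := (hZ' n r3 hr3 p3).1 h7
  have h9 := fimp_elim (down_meets _) (reg_fground _) (hN0 n ((le_max_left _ _).trans hn'))
    (hp3.trans hp2) h8
  have h10 := fimp_elim (down_meets _) (reg_fground _) (hN1 n ((le_max_right _ _).trans hn'))
    hp3 h8
  exact hdisj n h9 h10

end Names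

end Pool.Agent.NH90.BS
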