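import Pool.Agent.NH90.BS.ScaleN
import Pool.Agent.NH90.BS.Tow

/-!
# The product of the iteration and of the tower forcing forces the hypothesis
-/

set_option autoImplicit false

namespace Pool.Agent.NH90.BS

open Cardinal Pool.Agent.Helper669.Forcing Pool.Agent.W684.FM Pool.Agent.W910.FC

section Tr

variable {Q P : Type} [Preorder Q] [Preorder P] {q : Q}

theorem Tr.LtN {x y : ℕ → Set (Q × P)} {x' y' : ℕ → Set P}
    (hx : ∀ a, Tr q (meets (x a)) (meets (x' a))) (hy : ∀ a, Tr q (meets (y a)) (meets (y' a))) :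
    Tr q (LtN x y) (LtN x' y') :=
  Tr.fall fun a => Tr.fall fun b => Tr.fimp (Tr.fand (hx a) (hy b)) (Tr.fground _ _)

theorem Tr.LeN {x y : ℕ → Set (Q × P)} {x' y' : ℕ → Set P}
    (hx : ∀ a, Tr q (meets (x a)) (meets (x' a))) (hy : ∀ a, Tr q (meets (y a)) (meets (y' a))) :
    Tr q (LeN x y) (LeN x' y') :=
  Tr.fall fun a => Tr.fall fun b => Tr.fimp (Tr.fand (hx a) (hy b)) (Tr.fground _ _)

theorem Tr.LtN' (n : ℕ) {y : ℕ → Set (Q × P)} {y' : ℕ → Set P}
    (hy : ∀ a, Tr q (meets (y a)) (meets (y' a))) : Tr q (LtN' n y) (LtN' n y') :=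
  Tr.fall fun b => Tr.fimp (hy b) (Tr.fground _ _)

theorem Tr.AvN {e : ℕ → ℕ → Set (Q × P)} {e' : ℕ → ℕ → Set P}
    (he : ∀ n a, Tr q (meets (e n a)) (meets (e' n a))) (k : ℕ × Node) :
    Tr q (AvN e k) (AvN e' k) :=
  Tr.fimp (Tr.fall fun _ => Tr.fall fun _ => Tr.fall fun _ => Tr.fnot (he _ _))
    (Tr.fall fun _ => Tr.fall fun _ => Tr.fnot (he _ _))

end Tr

theorem mem_fex_all {P : Type*} [Preorder P] {ι : Sort*} {φ : ι → Set P} (i : ι)
    (h : ∀ q, q ∈ φ i) (p : P) : p ∈ fex φ := mem_fex.2 fun q _ => ⟨q, le_rfl, i, h q⟩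

variable {X W : Type} [LinearOrder W] [WellFoundedLT W] [Infinite X]

theorem hypN_holds (hW : Bdd X W) (hα : ∀ α : W, #{β : W // β < α} ≤ #X) (hT : #Tow ≤ #X)
    (m : W → ℕ) (hm : ∀ n α, ∃ α', α ≤ α' ∧ n ≤ m α')
    (γ₀ : W) (ι : {β : W // β < γ₀} → Om1) (hι : ∀ i j, i < j → ι i < ι j)
    (hιs : Function.Surjective ι) (s : Tow × PP X W) : s ∈ HypN (Tow × PP X W) W γ₀ := by
  classical
  obtain ⟨e, he⟩ := exists_scale hW m hα
  have tl : ∀ (r : Tow) (β : W) (n a : ℕ),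
      Tr r (meets (lift Tow (e β n a))) (meets (e β n a)) := fun r β n a => Tr.lift r _
  refine ⟨?_, ?_, ?_⟩
  · -- the scale
    refine mem_fex_all (fun β n a => lift Tow (e β n a)) ?_ s
    rintro ⟨r, p⟩
    refine ⟨?_, ⟨?_, ?_, ?_, ?_⟩, ?_⟩
    · intro β
      have t : Tr r (IsFun fun n a => lift Tow (e β n a)) (IsFun (e β)) := Tr.IsFun (tl r β)
      exact (t r le_rfl p).2 ((he β).isFun p)
    · intro β n n' hn
      have t := Tr.LtN (tl r β n) (tl r β n')
      exact (t r le_rfl p).2 ((he β).mono p n n' hn)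
    · intro β α hβ
      have t := Tr.fex fun N : ℕ => Tr.fall fun n : ℕ => Tr.fall fun _ : N ≤ n =>
        Tr.LtN (tl r β n) (tl r α n)
      exact (t r le_rfl p).2 ((he α).dom ⟨β, hβ⟩ p)
    · -- unbounded
      intro g
      rw [mem_fimp]
      rintro ⟨r0, p0⟩ _ hg
      obtain ⟨r1, hr1, g', hg'⟩ := exists_names1 Tow.closed pccc (ι := ℕ × ℕ)
        (fun i => g i.1 i.2) r0
      refine ⟨(r1, p0), ⟨hr1, le_rfl⟩, ?_⟩
      choose g2 hg2c hg2 using fun i => exists_countable_name pccc (g' i)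
      have hgt : ∀ n a, Tr r1 (meets (g n a)) (meets (g2 (n, a))) := fun n a => by
        rw [hg2]
        exact hg' (n, a)
      obtain ⟨A, hAc, hA⟩ := exists_countable_name pccc (fnot (IsFun fun n a => g2 (n, a)))
      rw [meets_reg (reg_fnot (down_IsFun _))] at hA
      obtain ⟨α1, h1⟩ := exists_below hW (ι := ℕ × ℕ)
        (mk_le_aleph0.trans (Cardinal.aleph0_le_mk X)) g2 hg2c
      obtain ⟨α2, h2⟩ := exists_below hW (ι := Unit)
        (mk_le_aleph0.trans (Cardinal.aleph0_le_mk X)) (fun _ => A) (fun _ => hAc)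
      have hp0 : p0 ∈ IsFun fun n a => g2 (n, a) :=
        (Tr.IsFun hgt r1 le_rfl p0).1 (down_IsFun g _ hg _ ⟨hr1, le_rfl⟩)
      have h3 := (he (max α1 α2)).unb (fun n a => g2 (n, a)) A
        (fun n a => h1 _ (le_max_left _ _) (n, a)) (h2 _ (le_max_right _ _) ()) hA p0 hp0
      refine mem_fex_of_mem (max α1 α2) (down_fall fun _ => down_fex _) ?_
      have t := Tr.fall fun N : ℕ => Tr.fex fun n : ℕ => Tr.fand (Tr.fground r1 (N ≤ n))
        (Tr.LtN (hgt n) (tl r1 (max α1 α2) n))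
      exact (t r1 le_rfl p0).2 h3
    · intro n α
      obtain ⟨α', h1, h2⟩ := hm n α
      refine mem_fex_of_mem α' (down_fand (down_fground _) (reg_LtN' _ _).1) ⟨h1, ?_⟩
      have t := Tr.LtN' n (tl r α' 0)
      refine (t r le_rfl p).2 fun b => ?_
      apply fimp_intro
      intro q hq hb
      have h3 := fimp_elim (down_meets _) (reg_fground _) ((he α').big p b) hq hb
      rw [mem_fground] at h3 ⊢
      omega
    · -- the sequences
      intro γ A
      rw [mem_fimp]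
      rintro ⟨r0, p0⟩ _ hA
      obtain ⟨r1, hr1, A', hA'⟩ := exists_names1 Tow.closed pccc A r0
      refine ⟨(r1, p0), ⟨hr1, le_rfl⟩, ?_⟩
      have t := Tr.fall fun F : Finset {β : W // β < γ} => Tr.fall fun N : ℕ =>
        Tr.fex fun k : ℕ × Node => Tr.fand (Tr.fground r1 (N ≤ k.2.getD k.1 0))
          (Tr.fand (hA' k) (Tr.fall fun β : {β : W // β < γ} => Tr.fall fun _ : β ∈ F =>
            Tr.AvN (tl r1 β) k))
      have h1 := (t r1 le_rfl p0).1 (down_fall (fun _ => down_fall fun _ => down_fex _) _ hA _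
        ⟨hr1, le_rfl⟩)
      have h2 := pseudo_names hW (hα γ) (fun β => e β.1) A' p0 h1
      rw [mem_fex]
      rintro ⟨r2, p2⟩ ⟨hr2, hp2⟩
      obtain ⟨p3, hp3, g, hg⟩ := mem_fex.1 h2 p2 hp2
      refine ⟨(r2, p3), ⟨le_rfl, hp3⟩, fun n k => lift Tow (g n k), ?_⟩
      have tg : ∀ n k, Tr r1 (meets (lift Tow (g n k))) (meets (g n k)) := fun n k => Tr.lift r1 _
      have t' := Tr.fand (Tr.IsFun tg) (Tr.fand (Tr.fall fun n : ℕ => Tr.fall fun k : ℕ × Node =>
        Tr.fimp (tg n k) (Tr.fand (Tr.fground r1 (n ≤ k.2.getD k.1 0)) (hA' k)))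
        (Tr.fall fun β : {β : W // β < γ} => Tr.fex fun N : ℕ => Tr.fall fun n : ℕ =>
          Tr.fall fun _ : N ≤ n => Tr.fall fun k : ℕ × Node => Tr.fimp (tg n k)
            (Tr.AvN (tl r1 β) k)))
      exact (t' r2 hr2 p3).2 hg
  · -- bounds
    intro γ g
    rw [mem_fimp]
    rintro ⟨r, p⟩ _ hg
    refine ⟨(r, p), le_rfl, ?_⟩
    let J := {j : {β : W // β < γ} × Tow // j.2 ≤ r ∧ ∃ g' : ℕ → ℕ → Set (PP X W),
      ∀ n a, Tr j.2 (meets (g j.1 n a)) (meets (g' n a))}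
    have hJ : #J ≤ #X := by
      refine (Cardinal.mk_subtype_le _).trans ?_
      rw [Cardinal.mk_prod, Cardinal.lift_id, Cardinal.lift_id]
      calc #{β : W // β < γ} * #Tow ≤ #X * #X := mul_le_mul' (hα γ) hT
        _ = #X := Cardinal.mul_eq_self (Cardinal.aleph0_le_mk X)
    choose g' hg' using fun j : J => j.2.2
    obtain ⟨h, hh1, hh2⟩ := bound_names hW hJ g' p (fun j => by
      have t : Tr j.1.2 (IsFun (g j.1.1)) (IsFun (g' j)) := Tr.IsFun (hg' j)
      exact (t j.1.2 le_rfl p).1 (down_IsFun _ _ (hg j.1.1) _ ⟨j.2.1, le_rfl⟩))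
    refine mem_fex_of_mem (fun n a => lift Tow (h n a)) (down_fand (down_IsFun _)
      (down_fall fun _ => down_fex _)) ⟨?_, fun β => ?_⟩
    · have t : Tr r (IsFun fun n a => lift Tow (h n a)) (IsFun h) :=
        Tr.IsFun fun n a => Tr.lift r _
      exact (t r le_rfl p).2 hh1
    · rw [mem_fex]
      rintro ⟨r1, p1⟩ ⟨hr1, hp1⟩
      obtain ⟨r2, hr2, gg, hgg⟩ := exists_names1 Tow.closed pccc (ι := ℕ × ℕ)
        (fun i => g β i.1 i.2) r1
      let j : J := ⟨(β, r2), hr2.trans hr1, fun n a => gg (n, a), fun n a => hgg (n, a)⟩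
      obtain ⟨p2, hp2, N, hN⟩ := mem_fex.1 (hh2 j) p1 hp1
      refine ⟨(r2, p2), ⟨hr2, hp2⟩, N, ?_⟩
      have t := Tr.fall fun n : ℕ => Tr.fall fun _ : N ≤ n =>
        Tr.LeN (hg' j n) (fun a => Tr.lift (Q := Tow) r2 (h n a))
      exact (t r2 le_rfl p2).2 hN
  · -- the tower
    refine mem_fex_all (fun β n => TN (ι β) n) ?_ s
    intro s
    refine ⟨fun i N => TN_inf s (ι i) N, fun i j hij => TN_dec s (ι i) (ι j) (hι i j hij), ?_⟩
    intro s1 _ h
    refine TN_max pccc s1 s1 le_rfl (mem_fex_mono h ?_)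
    rintro Z q _ ⟨h1, h2⟩
    refine ⟨h1, fun j => ?_⟩
    obtain ⟨i, rfl⟩ := hιs j
    exact h2 i

/-- fibres are cofinal -/
theorem exists_fibres (X : Type) [Infinite X] :
    ∃ m : (Order.succ #X).ord.ToType → ℕ, ∀ n α, ∃ α', α ≤ α' ∧ n ≤ m α' := by
  set W := (Order.succ #X).ord.ToType
  have hWc : #W = Order.succ #X := Cardinal.mk_ord_toType _
  have hWi : ℵ₀ ≤ #W := by
    rw [hWc]
    exact (Cardinal.aleph0_le_mk X).trans (Order.le_succ _)
  obtain ⟨f⟩ : Nonempty (W ≃ W × ℕ) := by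
    rw [← Cardinal.eq, Cardinal.mk_prod, Cardinal.lift_id, Cardinal.lift_id, Cardinal.mk_nat]
    exact (Cardinal.mul_eq_left hWi hWi Cardinal.aleph0_ne_zero).symm
  refine ⟨fun α => (f α).2, fun n α => ?_⟩
  by_contra hcon
  push Not at hcon
  have h1 : #W ≤ #(Set.Iio α) := by
    refine Cardinal.mk_le_of_injective (f := fun w : W => (⟨f.symm (w, n), ?_⟩ : Set.Iio α)) ?_
    · by_contra h
      have := hcon (f.symm (w, n)) (not_lt.1 h)
      simp at this
    · intro w w' h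
      have h2 := congrArg Subtype.val h
      simp only [EmbeddingLike.apply_eq_iff_eq, Prod.mk.injEq, and_true] at h2
      exact h2
  have h2 : #(Set.Iio α) < Order.succ #X := Cardinal.mk_Iio_toType_ord_lt α
  rw [hWc] at h1
  exact absurd h1 (not_le.2 h2)

/-- the initial segment of type `ω₁` -/
theorem exists_seg {κ : Cardinal.{0}} (hκ : ℵ₁ < κ) :
    ∃ (γ₀ : κ.ord.ToType) (ι : {β : κ.ord.ToType // β < γ₀} → Om1), (∀ i j, i < j → ι i < ι j) ∧
      Function.Surjective ι := by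
  have h1 : Ordinal.type (α := Om1) (· < ·) < Ordinal.type (α := κ.ord.ToType) (· < ·) := by
    rw [Ordinal.type_toType, Ordinal.type_toType]
    exact Cardinal.ord_lt_ord.2 hκ
  rw [Ordinal.type_lt_iff] at h1
  obtain ⟨f⟩ := h1
  have h2 : ∀ β : {β // β < f.top}, ∃ i, f i = β.1 := fun β => f.mem_range_of_rel_top β.2
  choose ι hι using h2
  refine ⟨f.top, ι, fun i j hij => ?_, fun j => ?_⟩
  · have h3 : f (ι i) < f (ι j) := by
      rw [hι, hι]
      exact hij
    exact f.map_rel_iff.1 h3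
  · refine ⟨⟨f j, f.lt_top j⟩, f.injective ?_⟩
    rw [hι]

/-- The hypothesis can be forced. -/
theorem exists_forcing_hyp : ∃ (W : Type) (_ : LinearOrder W) (_ : WellFoundedLT W) (γ₀ : W)
    (P : Type) (_ : Preorder P), Nonempty P ∧ ∀ p : P, p ∈ HypN P W γ₀ := by
  let X := Tow ⊕ Om1
  have hX1 : #Tow ≤ #X := Cardinal.mk_le_of_injective (f := Sum.inl) Sum.inl_injective
  have hX2 : ℵ₁ ≤ #X := by
    rw [← Cardinal.mk_ord_toType ℵ₁]
    exact Cardinal.mk_le_of_injective (f := Sum.inr) Sum.inr_injective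
  obtain ⟨m, hm⟩ := exists_fibres X
  obtain ⟨γ₀, ι, hι, hιs⟩ := exists_seg (κ := Order.succ #X) (Order.lt_succ_of_le hX2)
  refine ⟨(Order.succ #X).ord.ToType, inferInstance, inferInstance, γ₀,
    Tow × PP X (Order.succ #X).ord.ToType, inferInstance, ?_, fun p => ?_⟩
  · refine ⟨⟨⟨∅, fun _ => ∅, fun _ _ _ h => h, ⟨Classical.arbitrary Om1, fun j hj => ?_⟩,
      fun j hj => ?_, fun _ j _ hj => ?_⟩, ⟨∅, valid_empty _⟩⟩⟩
    · exact absurd hj (Set.notMem_empty j)
    · exact absurd hj (Set.notMem_empty j)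
    · exact absurd hj (Set.notMem_empty j)
  · refine hypN_holds (bdd_succ X) (fun α => ?_) hX1 m hm γ₀ ι hι hιs p
    exact Order.lt_succ_iff.1 (Cardinal.mk_Iio_toType_ord_lt α)

end Pool.Agent.NH90.BS
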