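import Pool.Agent.NH90.BS.Zfc

open Cardinal Filter Topology

namespace Pool.Agent.NH90.BS

section

variable {W : Type} [LinearOrder W] [WellFoundedLT W] {e : W → ℕ → ℕ}

/-- a family indexed by `W` which is a `𝔟`-scale -/
theorem isBScale_range (hS : Sc W e) (f : W → Node → ℕ) (h1 : ∀ α, Increasing (f α))
    (h2 : ∀ β α, β < α → LeStar (f β) (f α) ∧ ¬ LeStar (f α) (f β))
    (h3 : UnboundedEverywhere (Set.range f)) (h4 : ∀ n α, ∃ α', α ≤ α' ∧ n < f α' []) :
    IsBScale (Set.range f) := by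
  have hle : ∀ β α, β ≤ α ↔ LeStar (f β) (f α) := by
    intro β α
    constructor
    · intro h
      rcases h.lt_or_eq with h | rfl
      · exact (h2 β α h).1
      · unfold LeStar; simp
    · intro h
      by_contra hcon
      exact (h2 α β (not_le.1 hcon)).2 h
  have hinj : Function.Injective f := by
    intro α β h
    apply le_antisymm
    · rw [hle, h]; unfold LeStar; simp
    · rw [hle, h]; unfold LeStar; simp
  refine ⟨?_, ?_, ?_, ?_⟩
  · rintro _ ⟨α, rfl⟩; exact h1 α
  · rintro ⟨g, hg⟩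
    refine h3 Set.univ Set.infinite_univ ⟨g, fun f' hf' => ?_⟩
    have h5 := hg f' hf'
    unfold LeStar at h5
    simpa using h5
  · obtain ⟨φ⟩ := hS.iso
    refine ⟨φ.toEquiv.trans (Equiv.ofInjective f hinj), fun i j => ?_⟩
    rw [← φ.le_iff_le, hle]
    rfl
  · rintro n _ ⟨α, rfl⟩
    obtain ⟨α', h5, h6⟩ := h4 n α
    exact ⟨f α', ⟨α', rfl⟩, (hle α α').1 h5, h6⟩

/-- the scale -/
def fr (e : W → ℕ → ℕ) (α : W) : Node → ℕ := fun s => e α (cd s)

theorem increasing_comp {h : ℕ → ℕ} (hh : StrictMono h) : Increasing (fun s => h (cd s)) :=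
  ⟨fun _ _ h1 h2 => hh (cd_lt_of_prefix h1 h2), fun s _ _ h1 => hh (cd_append_lt s h1)⟩

omit [WellFoundedLT W] in
/-- from codes to nodes -/
theorem leStar_of {f g : Node → ℕ} (N : ℕ) (h : ∀ s, N ≤ cd s → f s ≤ g s) : LeStar f g := by
  apply finite_of_cd N
  intro s hs
  by_contra hcon
  exact hs (h s (not_lt.1 hcon))

theorem unbEverywhere_of (hS : Sc W e) (f : W → Node → ℕ) (α₀ : W)
    (h : ∀ α, α₀ ≤ α → ∀ s, e α (cd s) ≤ f α s) : UnboundedEverywhere (Set.range f) := by
  rintro X hX ⟨g, hg⟩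
  have hD : (cd '' X).Infinite := hX.image cd_injective.injOn
  let M : ℕ → ℕ := fun n => g (Function.invFun cd n)
  refine hS.unb_on hD M α₀ fun α hα => ?_
  have h1 := hg (f α) ⟨α, rfl⟩
  have h2 : (cd '' {s ∈ X | ¬ f α s ≤ g s}).Finite := h1.image _
  obtain ⟨N, hN⟩ := h2.bddAbove
  refine ⟨N + 1, ?_⟩
  rintro _ ⟨s, hs, rfl⟩ hlt
  have h3 : Function.invFun cd (cd s) = s := Function.leftInverse_invFun cd_injective s
  simp only [M, h3]
  by_contra hcon
  have h4 : ¬ f α s ≤ g s := fun h5 => hcon ((h α hα s).trans h5)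
  have := hN ⟨s, ⟨hs, h4⟩, rfl⟩
  omega

theorem fr_isBScale (hS : Sc W e) : IsBScale (Set.range (fr e)) := by
  obtain ⟨α₀⟩ := hS.nonempty
  apply isBScale_range hS
  · exact fun α => increasing_comp (hS.mono α)
  · intro β α h
    obtain ⟨N, hN⟩ := hS.lt β α h
    refine ⟨leStar_of N fun s hs => (hN _ hs).le, fun h2 => ?_⟩
    have h3 : {s : Node | ¬ N ≤ cd s}.Finite := by
      simpa using finite_cd_lt N
    have h4 : (Set.univ : Set Node) ⊆ {s | ¬ fr e α s ≤ fr e β s} ∪ {s | ¬ N ≤ cd s} := by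
      intro s _
      by_cases hs : N ≤ cd s
      · exact Or.inl (not_le.2 (hN _ hs))
      · exact Or.inr hs
    exact Set.infinite_univ ((h2.union h3).subset h4)
  · exact unbEverywhere_of hS _ α₀ fun α _ s => le_rfl
  · intro n α
    exact hS.big n α

theorem fr_unb (hS : Sc W e) : UnboundedEverywhere (Set.range (fr e)) := by
  obtain ⟨α₀⟩ := hS.nonempty
  exact unbEverywhere_of hS _ α₀ fun α _ s => le_rfl

/-- first components along prefixes -/
theorem take_of_prefix {x t : Node} (h : x <+: t) {i : ℕ} (hi : i ≤ x.length) :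
    t.take i = x.take i := by
  obtain ⟨u, rfl⟩ := h
  rw [List.take_append_of_le_length hi]

theorem getElem_of_prefix {x t : Node} (h : x <+: t) {i : ℕ} (hi : i < x.length)
    (hi' : i < t.length) : t[i] = x[i] := by
  obtain ⟨u, rfl⟩ := h
  rw [List.getElem_append_left hi]

theorem exists_step {x t : Node} (h : x <+: t) (hne : t ≠ x) :
    ∃ hl : x.length < t.length, x ++ [t[x.length]] <+: t ∧ t.getD x.length 0 = t[x.length] := by
  obtain ⟨u, rfl⟩ := h
  cases u with
  | nil => simp at hne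
  | cons m u =>
    refine ⟨by simp, ?_, ?_⟩
    · refine ⟨u, ?_⟩
      simp
    · simp

theorem cd_take_ge {x t : Node} (h : x <+: t) (hne : t ≠ x) {i : ℕ} (hi : x.length < i) :
    t.getD x.length 0 < cd (t.take i) := by
  obtain ⟨hl, h1, h2⟩ := exists_step h hne
  rw [h2]
  refine (lt_cd_append x _).trans_le (cd_le_of_prefix ?_)
  obtain ⟨u, hu⟩ := h1
  have h3 : t.take i = (x ++ [t[x.length]]) ++ u.take (i - (x.length + 1)) := by
    conv_lhs => rw [← hu]
    rw [List.take_append]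
    congr 1
    · apply List.take_of_length_le
      simp
      omega
    · simp
  rw [h3]
  exact List.prefix_append _ _

theorem fr_frechet (hS : Sc W e)
    (hP : ∀ (γ : W) (A : ℕ × Node → Prop),
      (∀ (F : Finset {β : W // β < γ}) (N : ℕ), ∃ k : ℕ × Node, N ≤ k.2.getD k.1 0 ∧ A k ∧
        ∀ β ∈ F, Av (e β) k) →
      ∃ g : ℕ → ℕ × Node, (∀ n, n ≤ (g n).2.getD (g n).1 0 ∧ A (g n)) ∧
        ∀ β : {β : W // β < γ}, ∃ N, ∀ n, N ≤ n → Av (e β) (g n)) :
    Frechet (Set.range (fr e)) := by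
  classical
  letI := dowTop (Set.range (fr e))
  refine ⟨fun A x hx => ?_⟩
  by_cases hxA : x ∈ A
  · exact ⟨fun _ => x, fun _ => hxA, tendsto_const_nhds⟩
  have htopo : ∀ V ∈ ({V | ∃ s, V = cone s} ∪ {V | ∃ s, V = (cone s)ᶜ} ∪
      {V | ∃ f ∈ Set.range (fr e), V = U f} : Set (Set Node)), IsOpen V := fun V hV =>
    TopologicalSpace.isOpen_generateFrom_of_mem hV
  -- positivity
  have hcl : ∀ (F : Finset W) (N : ℕ), ∃ t ∈ A, x <+: t ∧ t ≠ x ∧ N ≤ t.getD x.length 0 ∧
      ∀ β ∈ F, Av (e β) (x.length, t) := by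
    intro F N
    let O : Set Node := cone x ∩ (⋂ m ∈ Finset.range N, (cone (x ++ [m]))ᶜ) ∩
      ⋂ β ∈ F.filter (fun β => x ∈ U (fr e β)), U (fr e β)
    have hO : IsOpen O := by
      apply IsOpen.inter
      · apply IsOpen.inter
        · exact htopo _ (Or.inl (Or.inl ⟨x, rfl⟩))
        · exact isOpen_biInter_finset fun m _ => htopo _ (Or.inl (Or.inr ⟨_, rfl⟩))
      · exact isOpen_biInter_finset fun β _ => htopo _ (Or.inr ⟨_, ⟨β, rfl⟩, rfl⟩)
    have hxO : x ∈ O := by
      refine ⟨⟨List.prefix_refl x, ?_⟩, ?_⟩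
      · rw [Set.mem_iInter₂]
        intro m _ hm
        have := hm.length_le
        simp at this
      · rw [Set.mem_iInter₂]
        intro β hβ
        exact (Finset.mem_filter.1 hβ).2
    obtain ⟨t, ⟨⟨ht1, ht2⟩, ht3⟩, htA⟩ := mem_closure_iff.1 hx O hO hxO
    have hne : t ≠ x := fun h => hxA (h ▸ htA)
    obtain ⟨hl, h1, h2⟩ := exists_step ht1 hne
    refine ⟨t, htA, ht1, hne, ?_, ?_⟩
    · rw [h2]
      by_contra hcon
      rw [Set.mem_iInter₂] at ht2
      exact ht2 _ (Finset.mem_range.2 (not_le.1 hcon)) h1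
    · intro β hβ hpre
      rw [Set.mem_iInter₂] at ht3
      have hxU : x ∈ U (fr e β) := by
        intro i hi
        have hi2 : i < t.length := by omega
        have := hpre i hi hi2
        simp only at this
        rw [take_of_prefix ht1 hi.le, getElem_of_prefix ht1 hi] at this
        exact fun h => this h.symm
      have := ht3 β (Finset.mem_filter.2 ⟨hβ, hxU⟩)
      intro i hi h
      exact this i hi h.symm
  let Ab : W → Set Node := fun β => {t | ∀ i, x.length < i → ∀ h : i < t.length, t[i] < e β (cd (t.take i))}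
  by_cases hcase : ∀ F : Finset W, ∃ β, ∀ N, ∃ t ∈ A, x <+: t ∧ t ≠ x ∧ N ≤ t.getD x.length 0 ∧
      (∀ β ∈ F, Av (e β) (x.length, t)) ∧ t ∈ Ab β
  · choose Φ hΦ using hcase
    obtain ⟨γ, hγ⟩ := hS.closed Φ
    obtain ⟨g, hg1, hg2⟩ := hP γ (fun k => k.1 = x.length ∧ k.2 ∈ A ∧ x <+: k.2 ∧ k.2 ≠ x ∧ k.2 ∈ Ab γ) (by
      intro F N
      let F' : Finset W := F.map (Function.Embedding.subtype _)
      have hF' : ∀ β ∈ F', β < γ := by
        intro β hβ
        obtain ⟨b, _, rfl⟩ := Finset.mem_map.1 hβ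
        exact b.2
      have hlt := hγ F' hF'
      obtain ⟨N', hN'⟩ := hS.lt _ _ hlt
      obtain ⟨t, htA, ht1, ht2, ht3, ht4, ht5⟩ := hΦ F' (max N N')
      refine ⟨(x.length, t), (le_max_left _ _).trans ht3, ⟨rfl, htA, ht1, ht2, ?_⟩, ?_⟩
      · intro i hi h
        refine (ht5 i hi h).trans (hN' _ ?_)
        exact ((le_max_right _ _).trans ht3).trans (cd_take_ge ht1 ht2 hi).le
      · intro β hβ
        exact ht4 β (Finset.mem_map.2 ⟨β, hβ, rfl⟩))
    have ga : ∀ n, n ≤ (g n).2.getD x.length 0 ∧ (g n).2 ∈ A ∧ x <+: (g n).2 ∧ (g n).2 ≠ x ∧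
        (g n).2 ∈ Ab γ := by
      intro n
      obtain ⟨h1, h2, h3⟩ := hg1 n
      rw [h2] at h1
      exact ⟨h1, h3⟩
    refine ⟨fun n => (g n).2, fun n => (ga n).2.1, ?_⟩
    refine TopologicalSpace.tendsto_nhds_generateFrom_iff.2 ?_
    rintro V ((⟨s, rfl⟩ | ⟨s, rfl⟩) | ⟨_, ⟨β, rfl⟩, rfl⟩) hxV
    · apply Filter.univ_mem'
      intro n
      exact List.IsPrefix.trans hxV (ga n).2.2.1
    · rw [Filter.mem_atTop_sets]
      refine ⟨s.getD x.length 0 + 1, fun n hn hcon => ?_⟩
      obtain ⟨h1, _, h3, h4, _⟩ := ga n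
      rcases List.prefix_or_prefix_of_prefix hcon h3 with h5 | h5
      · exact hxV h5
      · have hne : s ≠ x := fun h => hxV (h ▸ List.prefix_refl _)
        obtain ⟨hl, _, h6⟩ := exists_step h5 hne
        obtain ⟨hl', _, h7⟩ := exists_step h3 h4
        have h8 := getElem_of_prefix hcon hl hl'
        rw [h7, h8] at h1
        rw [h6] at hn
        omega
    · rw [Filter.mem_atTop_sets]
      have hU : ∀ n, ∀ i, i < x.length → ∀ h : i < (g n).2.length, ¬ e β (cd ((g n).2.take i)) = (g n).2[i] := by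
        intro n i hi h
        rw [take_of_prefix (ga n).2.2.1 (by omega), getElem_of_prefix (ga n).2.2.1 (by omega)]
        exact fun h' => hxV i (by omega) h'.symm
      rcases lt_or_ge β γ with hβ | hβ
      · obtain ⟨N, hN⟩ := hg2 ⟨β, hβ⟩
        refine ⟨N, fun n hn i hi => ?_⟩
        have h1 := hN n hn
        have h2 := h1 (by
          intro i hi h
          rw [(hg1 n).2.1] at hi
          exact hU n i hi h) i hi
        exact fun h => h2 h.symm
      · obtain ⟨N, hN⟩ := hS.le hβ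
        refine ⟨max N (e β (cd x) + 1), fun n hn i hi => ?_⟩
        obtain ⟨h1, _, h3, h4, h5⟩ := ga n
        obtain ⟨hl, _, h7⟩ := exists_step h3 h4
        rcases lt_trichotomy i x.length with h | h | h
        · exact fun h' => hU n i h hi h'.symm
        · subst h
          intro h'
          have h8 : (g n).2.take x.length = x := by
            obtain ⟨u, hu⟩ := h3
            rw [← hu]
            simp
          have h9 : (g n).2[x.length] = e β (cd x) := by
            rw [h']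
            simp only [fr]
            rw [h8]
          rw [h7, h9] at h1
          omega
        · have h8 := h5 i h hi
          have h9 := cd_take_ge h3 h4 h
          have h10 := hN (cd ((g n).2.take i)) (by omega)
          intro h'
          simp only [fr] at h'
          omega
  · exfalso
    push Not at hcase
    obtain ⟨F, hF⟩ := hcase
    let D : Set ℕ := {m | ∃ t ∈ A, x <+: t ∧ t ≠ x ∧ m = t.getD x.length 0 ∧ ∀ β ∈ F, Av (e β) (x.length, t)}
    have hD : D.Infinite := by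
      intro hfin
      obtain ⟨N, hN⟩ := hfin.bddAbove
      obtain ⟨t, h1, h2, h3, h4, h5⟩ := hcl F (N + 1)
      have := hN ⟨t, h1, h2, h3, rfl, h5⟩
      omega
    have hch : ∀ m, ∃ t : Node, m ∈ D → t ∈ A ∧ x <+: t ∧ t ≠ x ∧ m = t.getD x.length 0 ∧
        ∀ β ∈ F, Av (e β) (x.length, t) := by
      intro m
      by_cases hm : m ∈ D
      · obtain ⟨t, ht⟩ := hm
        exact ⟨t, fun _ => ht⟩
      · exact ⟨[], fun h => absurd h hm⟩
    choose t ht using hch
    obtain ⟨α₀⟩ := hS.nonempty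
    refine hS.unb_on hD (fun m => (t m).sum) α₀ fun α _ => ?_
    obtain ⟨N, hN⟩ := hF α
    refine ⟨N, fun m hm hNm => ?_⟩
    obtain ⟨h1, h2, h3, h4, h5⟩ := ht m hm
    have h6 := hN (t m) h1 h2 h3 (by omega) h5
    simp only [Ab, Set.mem_ofPred_eq, not_forall, not_lt] at h6
    obtain ⟨i, hi, h7, h8⟩ := h6
    have h9 := cd_take_ge h2 h3 hi
    rw [← h4] at h9
    have h10 := (hS.mono α).monotone h9.le
    have h11 : (t m)[i] ≤ (t m).sum := List.single_le_sum (by simp) _ (List.getElem_mem h7)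
    omega

end

end Pool.Agent.NH90.BS
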