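import Pool.Agent.NH90.BS.Sent

/-!
# Generic sequences over a stage of the iteration
-/

set_option autoImplicit false

namespace Pool.Agent.NH90.BS

open Cardinal Pool.Agent.Helper669.Forcing Pool.Agent.W684.FM Pool.Agent.W910.FC

variable {X W : Type} [LinearOrder W] [WellFoundedLT W]

theorem exists_gen [Infinite X] (hW : Bdd X W) {q0 : PP X W} {R : X → X → Set (PP X W)}
    (hpre : q0 ∈ IsPreN R) (hccc : q0 ∈ CCCN R) (α₀ : W) :
    ∃ F : X → Set (PP X W), q0 ∈ IsFilterN R F ∧ ∀ D : X → Set (PP X W),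
      (∀ x, Below α₀ (D x)) → q0 ∈ IsDenseN R D →
        q0 ∈ fex fun x => fand (meets (F x)) (meets (D x)) := by
  classical
  choose R' hR'c hR' using fun x y => exists_countable_name pccc (R x y)
  have hRe : ∀ x y, meets (R x y) = meets (R' x y) := fun x y => (hR' x y).symm
  have hpre' : q0 ∈ IsPreN R' := by
    simpa only [IsPreN, hRe] using hpre
  have hccc' : q0 ∈ CCCN R' := by
    simpa only [CCCN, CompatN, hRe] using hccc
  choose A hAc hAlb hAd using fun F : Finset X => exists_predense (P := PP X W) pccc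
    {r | r ≤ q0 ∧ ∃ z, ∀ x ∈ F, r ∈ meets (R' z x)} (by
      rintro r ⟨h1, z, h2⟩ s hs
      exact ⟨hs.trans h1, z, fun x hx => down_meets _ _ (h2 x hx) _ hs⟩)
  obtain ⟨α1, h1⟩ := exists_below hW (ι := X × X) (by simp) (fun i => R' i.1 i.2)
    fun i => hR'c i.1 i.2
  obtain ⟨α3, h3⟩ := exists_below hW (ι := Finset X) (by simp) A hAc
  let α := max α1 (max α₀ α3)
  have hα1 : α1 ≤ α := le_max_left _ _
  have hα2 : α₀ ≤ α := (le_max_left _ _).trans (le_max_right _ _)
  have hα3 : α3 ≤ α := (le_max_right _ _).trans (le_max_right _ _)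
  obtain ⟨c, hcst, hcnm⟩ := Code.exists_code α (fun F => Subtype.val '' A F)
    fun F => (hAc F).image _
  have hdata : Data α q0 R' A c := by
    refine ⟨hpre', hccc', fun x y => h1 α hα1 (x, y), fun F => h3 α hα3 F,
      fun F a ha => hAlb F ha, ?_, hcst, ?_⟩
    · intro F p hp hz
      exact hAd F p ⟨hp, hz⟩
    · intro F s
      rw [hcnm]
      constructor
      · rintro ⟨a, ha, rfl⟩
        exact ⟨a, ha, rfl⟩
      · rintro ⟨a, ha, rfl⟩
        exact ⟨a, ha, rfl⟩
  let top : PP X W := ⟨∅, valid_empty _⟩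
  have htop : ∀ p : PP X W, p ≤ top := fun p => Finset.empty_subset _
  refine ⟨genF c R', ?_, fun D hD hdense => ?_⟩
  · have h4 := (hdata.filter (D := fun _ _ => {top}) (fun i x => by
      refine mem_fex_of_mem x (down_fand (down_meets _) (down_meets _)) ⟨?_, ?_⟩
      · exact meets_of_le rfl (htop _)
      · exact hpre'.1 x) (by
      rintro _ _ s hs a ha
      rw [Set.mem_singleton_iff.1 hs] at ha
      exact absurd ha (Finset.notMem_empty _))).1
    simpa only [IsFilterN, hRe] using h4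
  · have h4 := (hdata.filter (D := fun _ => D) (fun i => by
      simpa only [IsDenseN, hRe] using hdense) (fun _ x s hs a ha =>
        (hD x s hs a ha).trans_le hα2)).2
    exact h4 (Classical.arbitrary X)

/-! ### Sequences -/

section Seq

variable {Y : Type}

/-- the finite sequences all of whose terms are allowed by `G` -/
def VS (G : List Y → Y → Prop) (s : List Y) : Prop := ∀ t v, t ++ [v] <+: s → G t v

theorem VS_nil (G : List Y → Y → Prop) : VS G [] := by
  intro t v h
  rw [List.prefix_nil] at h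
  exact absurd h (by simp)

theorem VS.snoc {G : List Y → Y → Prop} {s : List Y} (h : VS G s) {v : Y} (hv : G s v) :
    VS G (s ++ [v]) := by
  intro t w htw
  rcases List.prefix_concat_iff.1 htw with h1 | h1
  · obtain ⟨h2, h3⟩ := List.append_inj' h1 rfl
    have h3 : w = v := by simpa using h3
    rw [h2, h3]
    exact hv
  · exact h t w h1

/-- `G` holds at each term -/
theorem VS.get {G : List Y → Y → Prop} {s : List Y} (h : VS G s) {n : ℕ} (hn : n < s.length) :
    G (s.take n) s[n] := by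
  apply h
  rw [List.take_append_getElem hn]
  exact List.take_prefix _ _

variable {P : Type} [Preorder P]

/-- the terms of `t` from the length of `s` on satisfy the requirements with index in `F` -/
def Add (Q : X → ℕ → Y → Set P) (s t : List Y) (F : Finset X) : Set P :=
  fall fun n => fall fun h : n < t.length => fall fun _ : s.length ≤ n => fall fun i =>
    fall fun _ : i ∈ F => Q i n t[n]

omit [LinearOrder W] [WellFoundedLT W] in
theorem reg_Add {Q : X → ℕ → Y → Set P} (hQ : ∀ i n v, Reg (Q i n v)) (s t : List Y)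
    (F : Finset X) : Reg (Add Q s t F) :=
  reg_fall fun _ => reg_fall fun _ => reg_fall fun _ => reg_fall fun _ => reg_fall fun _ =>
    hQ _ _ _

/-- the preorder -/
def RN (stem : X → List Y) (fin : X → Finset X) (Q : X → ℕ → Y → Set P) (x y : X) : Set P :=
  fand (fground (stem y <+: stem x ∧ fin y ⊆ fin x)) (Add Q (stem y) (stem x) (fin y))

variable {stem : X → List Y} {fin : X → Finset X} {Q : X → ℕ → Y → Set P}

theorem reg_RN (hQ : ∀ i n v, Reg (Q i n v)) (x y : X) : Reg (RN stem fin Q x y) :=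
  reg_fand (reg_fground _) (reg_Add hQ _ _ _)

theorem RN_pre (hQ : ∀ i n v, Reg (Q i n v)) (p : P) : p ∈ IsPreN (RN stem fin Q) := by
  refine ⟨fun x => ?_, fun x y z => ?_⟩
  · apply meets_of_mem
    refine ⟨⟨List.prefix_rfl, Finset.Subset.refl _⟩, fun n h h' => ?_⟩
    exact absurd h (not_lt.2 h')
  · apply fimp_intro
    rintro q _ ⟨h1, h2⟩
    rw [meets_reg (reg_RN hQ _ _)] at h1 h2 ⊢
    obtain ⟨⟨h3, h4⟩, h5⟩ := h1
    obtain ⟨⟨h6, h7⟩, h8⟩ := h2
    refine ⟨⟨h6.trans h3, h7.trans h4⟩, fun n h h' i hi => ?_⟩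
    by_cases hn : n < (stem y).length
    · have h9 := h8 n hn h' i hi
      have h10 : (stem x)[n] = (stem y)[n] := by
        rw [List.prefix_iff_getElem] at h3
        obtain ⟨_, h3⟩ := h3
        exact (h3 n hn).symm
      rw [h10]
      exact h9
    · exact h5 n h (not_lt.1 hn) i (h7 hi)

theorem RN_ccc [Countable Y] (hP : PCCC P)
    (hcode : ∀ x y, ∃ z, stem z = stem x ∧ fin x ⊆ fin z ∧ fin y ⊆ fin z) (p : P) :
    p ∈ CCCN (RN stem fin Q) := by
  classical
  intro Z f
  rw [mem_fimp]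
  rintro q hq ⟨h1, h2⟩
  -- the possible members of `Z`
  let B : Set Om1 := {b | ∃ r ≤ q, r ∈ meets (Z b)}
  have hBunb : ∀ a, ∃ b, a < b ∧ b ∈ B := by
    intro a
    obtain ⟨r, hr, b, hb, hrb⟩ := mem_fex.1 (h1 a) q le_rfl
    exact ⟨b, hb, r, hr, hrb⟩
  have hB : ¬ B.Countable := by
    intro hc
    have hne : B.Nonempty := by
      obtain ⟨b, _, hb⟩ := hBunb (Classical.arbitrary Om1)
      exact ⟨b, hb⟩
    obtain ⟨e, he⟩ := hc.exists_eq_range hne
    obtain ⟨a, ha⟩ := exists_bound e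
    obtain ⟨b, hab, hb⟩ := hBunb a
    rw [he] at hb
    obtain ⟨n, rfl⟩ := hb
    exact absurd (ha n) (not_le.2 hab)
  have h3 : ∀ b : B, ∃ r ≤ q, r ∈ meets (Z b.1) ∧ ∃ x, r ∈ meets (f b.1 x) := by
    rintro ⟨b, r, hr, hrb⟩
    obtain ⟨s, hs, x, hx⟩ := IsFun.total (down_IsFun f q h2 r hr) b
    exact ⟨s, hs.trans hr, down_meets _ _ hrb _ hs, x, hx⟩
  choose r hr hrZ x hx using h3
  obtain ⟨b, b', hne, hst, u, hu, hu'⟩ := hP.exists_compat_same (X := B) (Z := List Y) (by
    have h4 : #(List Y) * ℵ₀ ≤ ℵ₀ := by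
      calc #(List Y) * ℵ₀ ≤ ℵ₀ * ℵ₀ := mul_le_mul' mk_le_aleph0 le_rfl
        _ = ℵ₀ := aleph0_mul_aleph0
    refine h4.trans_lt ?_
    rw [← not_le, Cardinal.le_aleph0_iff_set_countable]
    exact hB) r (fun b => stem (x b))
  obtain ⟨z, hz, hzf, hzf'⟩ := hcode (x b) (x b')
  refine ⟨u, hu.trans (hr b), ?_⟩
  have key : ∀ y : X, stem y = stem z → fin y ⊆ fin z → u ∈ meets (RN stem fin Q z y) := by
    intro y hy hyf
    apply meets_of_mem
    refine ⟨⟨by rw [hy], hyf⟩, fun n h h' => ?_⟩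
    rw [hy] at h'
    exact absurd h (not_lt.2 h')
  refine mem_fex_of_mem b.1 (down_fex _) (mem_fex_of_mem b'.1 (down_fand (down_fground _)
    (down_fand (down_meets _) (down_fand (down_meets _) (down_fex _)))) ⟨?_, ?_, ?_, ?_⟩)
  · exact fun h => hne (Subtype.ext h)
  · exact down_meets _ _ (hrZ b) _ hu
  · exact down_meets _ _ (hrZ b') _ hu'
  · refine mem_fex_of_mem (x b) (down_fex _) (mem_fex_of_mem (x b') (down_fand (down_meets _)
      (down_fand (down_meets _) (down_fex _))) ⟨?_, ?_, ?_⟩)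
    · exact down_meets _ _ (hx b) _ hu
    · exact down_meets _ _ (hx b') _ hu'
    · exact mem_fex_of_mem z (down_fand (down_meets _) (down_meets _))
        ⟨key _ hz.symm hzf, key _ (hst ▸ hz.symm) hzf'⟩

end Seq

end Pool.Agent.NH90.BS
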