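import Pool.Agent.NH90.BS.Seq

/-!
# Names in the iteration: bounds, sequences, and the scale
-/

set_option autoImplicit false

namespace Pool.Agent.NH90.BS

open Cardinal Pool.Agent.Helper669.Forcing Pool.Agent.W684.FM Pool.Agent.W910.FC

variable {X W : Type} [LinearOrder W] [WellFoundedLT W]

theorem exists_surj {I : Type} [Infinite X] [Nonempty I] (hI : #I ≤ #X) :
    ∃ c : X → I, Function.Surjective c := by
  obtain ⟨f⟩ := hI
  exact ⟨Function.invFun f, Function.invFun_surjective f.injective⟩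

section Sent

variable {P : Type} [Preorder P]

/-- `x ≤ v` for the named number `x` -/
def LeV (x : ℕ → Set P) (v : ℕ) : Set P := fall fun a => fimp (meets (x a)) (fground (a ≤ v))

/-- `x < v` for the named number `x` -/
def LtV (x : ℕ → Set P) (v : ℕ) : Set P := fall fun a => fimp (meets (x a)) (fground (a < v))

theorem reg_LeV (x : ℕ → Set P) (v : ℕ) : Reg (LeV x v) :=
  reg_fall fun _ => reg_fimp (down_meets _) _

theorem reg_LtV (x : ℕ → Set P) (v : ℕ) : Reg (LtV x v) :=
  reg_fall fun _ => reg_fimp (down_meets _) _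

theorem mem_LeV {X : Type} {f : X → ℕ → Set P} {p : P} (hf : p ∈ IsFun f) {x : X} {a v : ℕ}
    (ha : p ∈ meets (f x a)) (hav : a ≤ v) : p ∈ LeV (f x) v :=
  (val_iff hf ha (reg_fground _)).2 hav

theorem mem_LtV {X : Type} {f : X → ℕ → Set P} {p : P} (hf : p ∈ IsFun f) {x : X} {a v : ℕ}
    (ha : p ∈ meets (f x a)) (hav : a < v) : p ∈ LtV (f x) v :=
  (val_iff hf ha (reg_fground _)).2 hav

theorem LeN_of_LeV {x y : ℕ → Set P} {p : P}
    (h : p ∈ fall fun v => fimp (meets (y v)) (LeV x v)) : p ∈ LeN x y := by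
  intro a b
  rw [mem_fimp]
  rintro q hq ⟨h1, h2⟩
  have h3 := fimp_elim (down_meets _) (reg_LeV x b) (h b) hq h2
  exact ⟨q, le_rfl, fimp_elim (down_meets _) (reg_fground _) (h3 a) le_rfl h1⟩

theorem LtN_of_LtV {x y : ℕ → Set P} {p : P}
    (h : p ∈ fall fun v => fimp (meets (y v)) (LtV x v)) : p ∈ LtN x y := by
  intro a b
  rw [mem_fimp]
  rintro q hq ⟨h1, h2⟩
  have h3 := fimp_elim (down_meets _) (reg_LtV x b) (h b) hq h2
  exact ⟨q, le_rfl, fimp_elim (down_meets _) (reg_fground _) (h3 a) le_rfl h1⟩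

theorem mem_fex_mono {ι : Sort*} {φ ψ : ι → Set P} {p : P} (h : p ∈ fex φ)
    (hi : ∀ i, ∀ q ≤ p, q ∈ φ i → q ∈ ψ i) : p ∈ fex ψ := by
  rw [mem_fex] at h ⊢
  intro q hq
  obtain ⟨r, hr, i, h1⟩ := h q hq
  exact ⟨r, hr, i, hi i r (hr.trans hq) h1⟩

end Sent

/-- a family of at most `#X` names of functions has a bound -/
theorem bound_names [Infinite X] (hW : Bdd X W) {J : Type} (hJ : #J ≤ #X)
    (g : J → ℕ → ℕ → Set (PP X W)) (q0 : PP X W) (hg : ∀ j, q0 ∈ IsFun (g j)) :
    ∃ h : ℕ → ℕ → Set (PP X W), q0 ∈ IsFun h ∧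
      ∀ j, q0 ∈ fex fun N => fall fun n => fall fun _ : N ≤ n => LeN (g j n) (h n) := by
  classical
  rcases isEmpty_or_nonempty J with hJ0 | hJ0
  · refine ⟨fun _ a => {_p | a = 0}, ⟨fun n => ?_, fun n a b => ?_⟩, fun j => hJ0.elim j⟩
    · exact mem_fex_of_mem 0 (down_meets _) (meets_of_mem rfl)
    · apply fimp_intro
      rintro q hq ⟨h1, h2⟩
      obtain ⟨_, _, _, h3, _⟩ := h1 q le_rfl
      obtain ⟨_, _, _, h4, _⟩ := h2 q le_rfl
      have h3' : a = 0 := h3
      have h4' : b = 0 := h4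
      rw [mem_fground, h3', h4']
  · obtain ⟨c, hc⟩ := exists_surj hJ
    have : Nonempty W := by
      obtain ⟨α, _⟩ := hW ∅ (by simp)
      exact ⟨α⟩
    obtain ⟨f, hf1, hf2, hf3, _⟩ := gen_seq hW q0 (Classical.arbitrary W) (fun _ _ => True)
      (fun i n v => LeV (g (c i) n) v) (fun _ _ _ => reg_LeV _ _) (by
        intro F s _ q hq
        obtain ⟨r, hr, y, hy⟩ := exists_vals (fun i => g (c i)) F s.length q
          (fun i _ => down_IsFun _ _ (hg (c i)) _ hq)
        refine ⟨r, hr, F.sup y, trivial, fun i hi => ?_⟩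
        exact mem_LeV (down_IsFun _ _ (hg (c i)) _ (hr.trans hq)) (hy i hi)
          (Finset.le_sup (f := y) hi))
    refine ⟨f, hf1, fun j => ?_⟩
    obtain ⟨i, rfl⟩ := hc j
    refine mem_fex_mono (hf3 i) fun N q hq h n hn => ?_
    exact LeN_of_LeV (h n hn)

/-- the sequences for the Frechet property -/
theorem pseudo_names [Infinite X] (hW : Bdd X W) {I : Type} (hI : #I ≤ #X)
    (e : I → ℕ → ℕ → Set (PP X W)) (A : ℕ × Node → Set (PP X W)) (q0 : PP X W)
    (h : q0 ∈ fall fun F : Finset I => fall fun N : ℕ => fex fun k : ℕ × Node =>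
      fand (fground (N ≤ k.2.getD k.1 0)) (fand (meets (A k))
        (fall fun β : I => fall fun _ : β ∈ F => AvN (e β) k))) :
    q0 ∈ fex fun g : ℕ → ℕ × Node → Set (PP X W) => fand (IsFun g)
      (fand (fall fun n => fall fun k => fimp (meets (g n k))
          (fand (fground (n ≤ k.2.getD k.1 0)) (meets (A k))))
        (fall fun β : I => fex fun N => fall fun n => fall fun _ : N ≤ n =>
          fall fun k => fimp (meets (g n k)) (AvN (e β) k))) := by
  classical
  have hI' : #(Option I) ≤ #X := by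
    rw [Cardinal.mk_option]
    calc #I + 1 ≤ #X + #X := add_le_add hI (Cardinal.one_le_aleph0.trans (Cardinal.aleph0_le_mk X))
      _ = #X := Cardinal.add_eq_self (Cardinal.aleph0_le_mk X)
  obtain ⟨c, hc⟩ := exists_surj hI'
  have : Nonempty W := by
    obtain ⟨α, _⟩ := hW ∅ (by simp)
    exact ⟨α⟩
  let Q : X → ℕ × Node → Set (PP X W) := fun i k =>
    match c i with
    | none => meets (A k)
    | some β => AvN (e β) k
  have hQn : ∀ i k, c i = none → Q i k = meets (A k) := by
    intro i k hi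
    simp only [Q, hi]
  have hQs : ∀ i k β, c i = some β → Q i k = AvN (e β) k := by
    intro i k β hi
    simp only [Q, hi]
  obtain ⟨f, hf1, hf2, hf3, _⟩ := gen_seq hW q0 (Classical.arbitrary W)
    (fun s k => s.length ≤ k.2.getD k.1 0) (fun i _ k => Q i k) (by
      intro i n k
      rcases hi : c i with _ | β
      · simp only [hQn i k hi]
        exact reg_meets _
      · simp only [hQs i k β hi]
        exact reg_AvN _ _) (by
      intro F s _ q hq
      obtain ⟨r, hr, k, hk1, hk2, hk3⟩ := mem_fex.1 (h (F.image c).eraseNone s.length) q hq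
      refine ⟨r, hr, k, hk1, fun i hi => ?_⟩
      rcases hi' : c i with _ | β
      · simp only [hQn i k hi']
        exact hk2
      · simp only [hQs i k β hi']
        refine hk3 β ?_
        rw [Finset.mem_eraseNone, ← hi']
        exact Finset.mem_image_of_mem c hi)
  obtain ⟨i0, hi0⟩ := hc none
  rw [mem_fex]
  intro q hq
  obtain ⟨r, hr, N0, hN0⟩ := mem_fex.1 (hf3 i0) q hq
  have hrq := hr.trans hq
  refine ⟨r, hr, fun n k => f (n + N0) k, ⟨fun n => ?_, fun n k k' => ?_⟩, fun n k => ?_,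
    fun β => ?_⟩
  · exact (down_IsFun _ _ hf1 _ hrq).1 (n + N0)
  · exact (down_IsFun _ _ hf1 _ hrq).2 (n + N0) k k'
  · rw [mem_fimp]
    intro s hs hsk
    obtain ⟨t, ht, s', ⟨hv, hlen⟩, hinit⟩ := mem_fex.1 (hf2 (n + N0 + 1)) s (hs.trans hrq)
    have hlt : n + N0 < s'.length := hlen
    have h1 := IsFun.unique (down_IsFun _ _ hf1 _ (ht.trans (hs.trans hrq)))
      (down_meets _ _ hsk _ ht) (hinit _ hlt)
    have h2 := hv.get hlt
    rw [List.length_take, ← h1] at h2
    refine ⟨t, ht, ?_, ?_⟩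
    · rw [mem_fground]
      have h3 : min (n + N0) s'.length = n + N0 := min_eq_left hlt.le
      rw [h3] at h2
      omega
    · have h3 := hN0 (n + N0) (by omega) k
      simp only [hQn i0 k hi0] at h3
      exact down_meets _ _ (fimp_elim (down_meets _) (reg_meets _) h3 hs hsk) _ ht
  · obtain ⟨i, hi⟩ := hc (some β)
    refine mem_fex_mono (down_fex _ _ (hf3 i) _ hrq) fun N s hs h1 n hn k => ?_
    have h2 := h1 (n + N0) (by omega) k
    simp only [hQs i k β hi] at h2
    exact h2

end Pool.Agent.NH90.BS
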