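import Pool.Agent.NH90.BS.Fre

open Cardinal Filter Topology

namespace Pool.Agent.NH90.BS

section

variable {W : Type} [LinearOrder W] [WellFoundedLT W] {e : W → ℕ → ℕ}

open Classical in
/-- `0` if `p` holds, `1` otherwise -/
noncomputable def tv (p : Prop) : ℕ := if p then 0 else 1

omit [LinearOrder W] [WellFoundedLT W] in
theorem tv_le_one (p : Prop) : tv p ≤ 1 := by unfold tv; split_ifs <;> simp

omit [LinearOrder W] [WellFoundedLT W] in
theorem tv_mono {p q : Prop} (h : q → p) : tv p ≤ tv q := by
  unfold tv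
  by_cases hq : q
  · rw [if_pos hq, if_pos (h hq)]
  · rw [if_neg hq]; split_ifs <;> simp

open Classical in
/-- the second scale -/
noncomputable def nf (e : W → ℕ → ℕ) (γ₀ : W) (T : {β : W // β < γ₀} → ℕ → Prop) (α : W) :
    Node → ℕ := fun s =>
  if h : α < γ₀ then
    (if s.length = 0 then 0
      else if s.length = 1 then (2 * s.headD 0 + 1 + tv (T ⟨α, h⟩ (s.headD 0)))
      else e α (cd s) + 2 * s.headD 0 + 3)
  else (if s.length = 0 then e α 0 else e α (cd s) + 2 * s.headD 0 + 3)

variable {γ₀ : W} {T : {β : W // β < γ₀} → ℕ → Prop}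

theorem headD_append {s u : Node} (h : s ≠ []) : (s ++ u).headD 0 = s.headD 0 := by
  cases s with
  | nil => exact absurd rfl h
  | cons a s => rfl

open Classical in
theorem nf_lt {α : W} (h : α < γ₀) (s : Node) : nf e γ₀ T α s =
    if s.length = 0 then 0
      else if s.length = 1 then (2 * s.headD 0 + 1 + tv (T ⟨α, h⟩ (s.headD 0)))
      else e α (cd s) + 2 * s.headD 0 + 3 := by
  unfold nf; rw [dif_pos h]

theorem nf_ge {α : W} (h : γ₀ ≤ α) (s : Node) : nf e γ₀ T α s =
    if s.length = 0 then e α 0 else e α (cd s) + 2 * s.headD 0 + 3 := by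
  unfold nf; rw [dif_neg (not_lt.2 h)]

theorem nf_increasing (hS : Sc W e) (α : W) : Increasing (nf e γ₀ T α) := by
  classical
  rcases lt_or_ge α γ₀ with h | h
  · constructor
    · rintro s t ⟨u, rfl⟩ hne
      rw [nf_lt h, nf_lt h]
      have hu : u ≠ [] := by rintro rfl; simp at hne
      have hul : 0 < u.length := List.length_pos_iff.2 hu
      have hlen : (s ++ u).length = s.length + u.length := List.length_append
      by_cases hs : s = []
      · subst hs
        simp only [List.nil_append, List.length_nil, if_true]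
        rw [if_neg (by omega)]
        split_ifs <;> omega
      · have hsl : 0 < s.length := List.length_pos_iff.2 hs
        rw [headD_append hs]
        rw [if_neg (by omega : ¬ s.length = 0), if_neg (by omega : ¬ (s ++ u).length = 0),
          if_neg (by omega : ¬ (s ++ u).length = 1)]
        have h1 := hS.mono α (cd_lt_of_prefix (List.prefix_append s u) hne)
        have h3 := tv_le_one (T ⟨α, h⟩ (s.headD 0))
        split_ifs <;> omega
    · intro s n m hnm
      rw [nf_lt h, nf_lt h]
      have hl1 : (s ++ [n]).length = s.length + 1 := by simp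
      have hl2 : (s ++ [m]).length = s.length + 1 := by simp
      rw [hl1, hl2]
      have h1 := hS.mono α (cd_append_lt s hnm)
      by_cases hs : s = []
      · subst hs
        simp only [List.nil_append, List.length_nil, zero_add, one_ne_zero, if_false, if_true,
          List.headD_cons]
        have h2 := tv_le_one (T ⟨α, h⟩ n)
        omega
      · have hsl : 0 < s.length := List.length_pos_iff.2 hs
        rw [headD_append hs, headD_append hs]
        rw [if_neg (by omega), if_neg (by omega), if_neg (by omega), if_neg (by omega)]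
        omega
  · constructor
    · rintro s t ⟨u, rfl⟩ hne
      rw [nf_ge h, nf_ge h]
      have hu : u ≠ [] := by rintro rfl; simp at hne
      have hul : 0 < u.length := List.length_pos_iff.2 hu
      have hlen : (s ++ u).length = s.length + u.length := List.length_append
      have h1 := hS.mono α (cd_lt_of_prefix (List.prefix_append s u) hne)
      by_cases hs : s = []
      · subst hs
        simp only [List.nil_append, List.length_nil, if_true]
        rw [if_neg (by omega)]
        have : cd [] = 0 := rfl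
        rw [List.nil_append, this] at h1
        omega
      · have hsl : 0 < s.length := List.length_pos_iff.2 hs
        rw [headD_append hs]
        rw [if_neg (by omega : ¬ s.length = 0), if_neg (by omega : ¬ (s ++ u).length = 0)]
        omega
    · intro s n m hnm
      rw [nf_ge h, nf_ge h]
      have hl1 : (s ++ [n]).length = s.length + 1 := by simp
      have hl2 : (s ++ [m]).length = s.length + 1 := by simp
      rw [hl1, hl2]
      have h1 := hS.mono α (cd_append_lt s hnm)
      rw [if_neg (by omega), if_neg (by omega)]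
      by_cases hs : s = []
      · subst hs
        simp only [List.nil_append, List.headD_cons] at h1 ⊢
        omega
      · rw [headD_append hs, headD_append hs]
        omega

theorem length_pos_of_cd {s : Node} (h : 1 ≤ cd s) : ¬ s.length = 0 := by
  intro hs
  rw [List.length_eq_zero_iff] at hs
  subst hs
  have : cd [] = 0 := rfl
  omega

theorem head_lt_cd {s : Node} (h : ¬ s.length = 0) : s.headD 0 < cd s := by
  cases s with
  | nil => simp at h
  | cons a s =>
    have h1 : a < cd [a] := lt_cd_append [] a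
    have h2 : cd [a] ≤ cd (a :: s) := cd_le_of_prefix ⟨s, rfl⟩
    exact h1.trans_le h2

theorem cd_single_le (a b : ℕ) (h : a ≤ b) : cd [a] ≤ cd [b] := by
  rcases h.lt_or_eq with h | rfl
  · exact (cd_append_lt [] h).le
  · exact le_rfl

theorem nf_le (hS : Sc W e)
    (hT : ∀ i j, i < j → ∃ N, ∀ n, N ≤ n → T j n → T i n) {β α : W} (h : β < α) :
    LeStar (nf e γ₀ T β) (nf e γ₀ T α) := by
  classical
  obtain ⟨N, hN⟩ := hS.lt β α h
  by_cases hα : α < γ₀
  · have hβ : β < γ₀ := h.trans hα
    obtain ⟨N', hN'⟩ := hT ⟨β, hβ⟩ ⟨α, hα⟩ h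
    apply leStar_of (max (max N (cd [N'])) 1)
    intro s hs
    have hs0 := length_pos_of_cd (s := s) ((le_max_right _ _).trans hs)
    have hsN : N ≤ cd s := ((le_max_left _ _).trans (le_max_left _ _)).trans hs
    have hsN' : cd [N'] ≤ cd s := ((le_max_right _ _).trans (le_max_left _ _)).trans hs
    rw [nf_lt hα, nf_lt hβ, if_neg hs0, if_neg hs0]
    by_cases h1 : s.length = 1
    · rw [if_pos h1, if_pos h1]
      obtain ⟨a, rfl⟩ := List.length_eq_one_iff.1 h1
      simp only [List.headD_cons]
      have h2 : N' ≤ a := by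
        by_contra hcon
        have := cd_append_lt [] (not_le.1 hcon)
        simp only [List.nil_append] at this
        omega
      have h3 := tv_mono (hN' a h2)
      omega
    · rw [if_neg h1, if_neg h1]
      have := hN _ hsN
      omega
  · have hα' : γ₀ ≤ α := not_lt.1 hα
    apply leStar_of (max N 1)
    intro s hs
    have hs0 := length_pos_of_cd (s := s) ((le_max_right _ _).trans hs)
    have hsN : N ≤ cd s := (le_max_left _ _).trans hs
    have h1 := hN _ hsN
    rw [nf_ge hα', if_neg hs0]
    rcases lt_or_ge β γ₀ with hβ | hβ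
    · rw [nf_lt hβ, if_neg hs0]
      have h3 := tv_le_one (T ⟨β, hβ⟩ (s.headD 0))
      split_ifs <;> omega
    · rw [nf_ge hβ, if_neg hs0]
      omega

theorem nf_not_le (hS : Sc W e) {β α : W} (h : β < α) :
    ¬ LeStar (nf e γ₀ T α) (nf e γ₀ T β) := by
  classical
  intro hcon
  obtain ⟨N, hN⟩ := hS.lt β α h
  have h1 : ∀ n, N ≤ n → ¬ nf e γ₀ T α [n, 0] ≤ nf e γ₀ T β [n, 0] := by
    intro n hn
    have h2 : ([n, 0] : Node).length = 2 := rfl
    have h3 : N ≤ cd [n, 0] := by
      have h4 := head_lt_cd (s := [n, 0]) (by simp)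
      simp only [List.headD_cons] at h4
      omega
    have h4 := hN _ h3
    have h5 : ∀ α : W, nf e γ₀ T α [n, 0] = e α (cd [n, 0]) + 2 * n + 3 := by
      intro α
      rcases lt_or_ge α γ₀ with h | h
      · rw [nf_lt h]; simp
      · rw [nf_ge h]; simp
    rw [h5, h5]
    omega
  have h2 : (Set.range fun k : ℕ => ([N + k, 0] : Node)) ⊆
      {s | ¬ nf e γ₀ T α s ≤ nf e γ₀ T β s} := by
    rintro _ ⟨k, rfl⟩
    exact h1 _ (by omega)
  refine (Set.infinite_range_of_injective ?_) (hcon.subset h2)
  intro k l hkl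
  simpa using hkl

theorem nf_unb (hS : Sc W e) : UnboundedEverywhere (Set.range (nf e γ₀ T)) := by
  apply unbEverywhere_of hS _ γ₀
  intro α hα s
  rw [nf_ge hα]
  split_ifs with h
  · rw [List.length_eq_zero_iff] at h
    subst h
    exact le_rfl
  · omega

theorem nf_isBScale (hS : Sc W e)
    (hT : ∀ i j, i < j → ∃ N, ∀ n, N ≤ n → T j n → T i n) : IsBScale (Set.range (nf e γ₀ T)) := by
  apply isBScale_range hS
  · exact nf_increasing hS
  · exact fun β α h => ⟨nf_le hS hT h, nf_not_le hS h⟩
  · exact nf_unb hS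
  · intro n α
    obtain ⟨α', h1, h2⟩ := hS.big n (max α γ₀)
    refine ⟨α', (le_max_left _ _).trans h1, ?_⟩
    rw [nf_ge ((le_max_right _ _).trans h1)]
    simpa using h2

theorem nf_not_frechet (hinf : ∀ i N, ∃ n, N ≤ n ∧ T i n)
    (hT : ∀ i j, i < j → ∃ N, ∀ n, N ≤ n → T j n → T i n)
    (hno : ¬ ∃ Z : ℕ → Prop, (∀ N, ∃ n, N ≤ n ∧ Z n) ∧ ∀ i, ∃ N, ∀ n, N ≤ n → Z n → T i n) :
    ¬ Frechet (Set.range (nf e γ₀ T)) := by
  classical
  intro hF
  letI := dowTop (Set.range (nf e γ₀ T))
  haveI : FrechetUrysohnSpace Node := hF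
  let A : Set Node := {s | ∃ n, s = [n, 2 * n + 2]}
  -- membership in the trees
  have hU1 : ∀ (α : W) (h : α < γ₀) (n : ℕ), [n, 2 * n + 2] ∈ U (nf e γ₀ T α) ↔
      n ≠ 0 ∧ T ⟨α, h⟩ n := by
    intro α h n
    constructor
    · intro hm
      have h0 := hm 0 (by simp)
      have h1 := hm 1 (by simp)
      simp only [List.getElem_cons_zero, List.getElem_cons_succ, List.take_zero] at h0 h1
      rw [nf_lt h] at h0 h1
      simp at h0 h1
      refine ⟨h0, ?_⟩
      by_contra hcon
      have h2 : tv (T ⟨α, h⟩ n) = 1 := by unfold tv; rw [if_neg hcon]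
      omega
    · rintro ⟨h0, hT⟩ i hi
      have : i = 0 ∨ i = 1 := by simp at hi; omega
      rcases this with rfl | rfl
      · rw [nf_lt h]; simp; exact h0
      · rw [nf_lt h]; simp [hT, tv]
  have hU2 : ∀ (α : W) (h : γ₀ ≤ α) (n : ℕ), n ≠ e α 0 → [n, 2 * n + 2] ∈ U (nf e γ₀ T α) := by
    intro α h n hn i hi
    have : i = 0 ∨ i = 1 := by simp at hi; omega
    rcases this with rfl | rfl
    · rw [nf_ge h]; simp; exact hn
    · rw [nf_ge h]; simp; omega
  -- the root is in the closure
  have hcl : ([] : Node) ∈ closure A := by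
    rw [mem_closure_iff_nhds]
    intro V hV
    -- all basic neighbourhoods contain almost all points over a set T_i
    have hkey : ∀ V ∈ 𝓝 ([] : Node), ∃ γ : Option {β : W // β < γ₀}, ∃ N, ∀ n, N ≤ n →
        (∀ i ∈ γ, T i n) → [n, 2 * n + 2] ∈ V := by
      intro V hV
      have hV' : V ∈ @nhds Node (TopologicalSpace.generateFrom
        ({V | ∃ s, V = cone s} ∪ {V | ∃ s, V = (cone s)ᶜ} ∪
          {V | ∃ f ∈ Set.range (nf e γ₀ T), V = U f})) [] := hV
      rw [TopologicalSpace.nhds_generateFrom] at hV'
      let Fil : Filter Node :=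
        { sets := {V | ∃ γ : Option {β : W // β < γ₀}, ∃ N, ∀ n, N ≤ n →
            (∀ i ∈ γ, T i n) → [n, 2 * n + 2] ∈ V}
          univ_sets := ⟨none, 0, fun _ _ _ => trivial⟩
          sets_of_superset := by
            rintro V V' ⟨γ, N, h⟩ hVV'
            exact ⟨γ, N, fun n hn h1 => hVV' (h n hn h1)⟩
          inter_sets := by
            rintro V V' ⟨γ, N, h⟩ ⟨γ', N', h'⟩
            rcases γ with _ | i
            · exact ⟨γ', max N N', fun n hn h1 => ⟨h n ((le_max_left _ _).trans hn) (by simp),
                h' n ((le_max_right _ _).trans hn) h1⟩⟩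
            rcases γ' with _ | i'
            · exact ⟨some i, max N N', fun n hn h1 => ⟨h n ((le_max_left _ _).trans hn) h1,
                h' n ((le_max_right _ _).trans hn) (by simp)⟩⟩
            rcases lt_trichotomy i i' with h1 | h1 | h1
            · obtain ⟨M, hM⟩ := hT i i' h1
              refine ⟨some i', max M (max N N'), fun n hn h2 => ?_⟩
              have h3 : T i' n := h2 i' rfl
              have h4 := hM n ((le_max_left _ _).trans hn) h3
              refine ⟨h n (((le_max_left _ _).trans (le_max_right _ _)).trans hn) ?_,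
                h' n (((le_max_right _ _).trans (le_max_right _ _)).trans hn) h2⟩
              intro k hk
              rw [← Option.some.inj hk]
              exact h4
            · subst h1
              exact ⟨some i, max N N', fun n hn h2 => ⟨h n ((le_max_left _ _).trans hn) h2,
                h' n ((le_max_right _ _).trans hn) h2⟩⟩
            · obtain ⟨M, hM⟩ := hT i' i h1
              refine ⟨some i, max M (max N N'), fun n hn h2 => ?_⟩
              have h3 : T i n := h2 i rfl
              have h4 := hM n ((le_max_left _ _).trans hn) h3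
              refine ⟨h n (((le_max_left _ _).trans (le_max_right _ _)).trans hn) h2,
                h' n (((le_max_right _ _).trans (le_max_right _ _)).trans hn) ?_⟩
              intro k hk
              rw [← Option.some.inj hk]
              exact h4 }
      have hle : Fil ≤ ⨅ s ∈ {s : Set Node | [] ∈ s ∧ s ∈ ({V | ∃ s, V = cone s} ∪
          {V | ∃ s, V = (cone s)ᶜ} ∪ {V | ∃ f ∈ Set.range (nf e γ₀ T), V = U f} :
            Set (Set Node))}, 𝓟 s := by
        refine le_iInf₂ fun s hs => ?_
        rw [Filter.le_principal_iff]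
        obtain ⟨h0, (⟨t, rfl⟩ | ⟨t, rfl⟩) | ⟨_, ⟨α, rfl⟩, rfl⟩⟩ := hs
        · refine ⟨none, 0, fun n _ _ => ?_⟩
          have : t = [] := List.prefix_nil.1 h0
          subst this
          exact List.nil_prefix
        · refine ⟨none, t.headD 0 + 1, fun n hn _ hcon => ?_⟩
          cases t with
          | nil => exact h0 List.nil_prefix
          | cons a t =>
            have h1 : a :: t <+: [n, 2 * n + 2] := hcon
            rw [List.cons_prefix_cons] at h1
            simp only [List.headD_cons] at hn
            omega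
        · rcases lt_or_ge α γ₀ with h | h
          · refine ⟨some ⟨α, h⟩, 1, fun n hn h1 => ?_⟩
            rw [hU1 α h]
            exact ⟨by omega, h1 _ rfl⟩
          · refine ⟨none, e α 0 + 1, fun n hn _ => hU2 α h n (by omega)⟩
      exact hle hV'
    obtain ⟨γ, N, h⟩ := hkey V hV
    rcases γ with _ | i
    · exact ⟨_, h N le_rfl (by simp), N, rfl⟩
    · obtain ⟨n, hn, hTn⟩ := hinf i N
      refine ⟨_, h n hn ?_, n, rfl⟩
      intro k hk
      rw [← Option.some.inj hk]
      exact hTn
  have hseq := FrechetUrysohnSpace.closure_subset_seqClosure A hcl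
  obtain ⟨a, haA, ha⟩ := hseq
  choose n hn using haA
  have ha' := TopologicalSpace.tendsto_nhds_generateFrom_iff.1 ha
  -- the first coordinates tend to infinity
  have hn1 : ∀ m, ∀ᶠ k in atTop, n k ≠ m := by
    intro m
    have h1 := ha' (cone [m])ᶜ (Or.inl (Or.inr ⟨_, rfl⟩)) (by
      intro h
      have := List.IsPrefix.length_le h
      simp at this)
    filter_upwards [h1] with k hk hcon
    apply hk
    show [m] <+: a k
    rw [hn k, hcon]
    exact ⟨[2 * m + 2], rfl⟩
  have hn2 : ∀ M, ∀ᶠ k in atTop, M ≤ n k := by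
    intro M
    have h1 : ∀ᶠ k in atTop, ∀ m ∈ Finset.range M, n k ≠ m := by
      rw [Filter.eventually_all_finset]
      exact fun m _ => hn1 m
    filter_upwards [h1] with k hk
    by_contra hcon
    exact hk (n k) (Finset.mem_range.2 (not_le.1 hcon)) rfl
  apply hno
  refine ⟨fun m => ∃ k, n k = m, fun N => ?_, fun i => ?_⟩
  · obtain ⟨k, hk⟩ := (hn2 N).exists
    exact ⟨n k, hk, k, rfl⟩
  · have h1 := ha' (U (nf e γ₀ T i.1)) (Or.inr ⟨_, ⟨i.1, rfl⟩, rfl⟩) (by
      intro j hj; simp at hj)
    obtain ⟨K, hK⟩ := Filter.mem_atTop_sets.1 h1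
    refine ⟨(Finset.range K).sup n + 1, fun m hm hZ => ?_⟩
    obtain ⟨k, rfl⟩ := hZ
    have hkK : K ≤ k := by
      by_contra hcon
      have := Finset.le_sup (f := n) (Finset.mem_range.2 (not_le.1 hcon))
      omega
    have h2 := hK k hkK
    have h3 : a k ∈ U (nf e γ₀ T i.1) := h2
    rw [hn k, hU1 i.1 i.2] at h3
    exact h3.2

end

/-- The consequence of the hypothesis in ZFC. -/
theorem of_hyp {W : Type} [LinearOrder W] [WellFoundedLT W] {γ₀ : W} (h : Hyp W γ₀) :
    (∃ B, IsBScale B ∧ UnboundedEverywhere B ∧ Frechet B) ∧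
      ∃ B, IsBScale B ∧ UnboundedEverywhere B ∧ ¬ Frechet B := by
  obtain ⟨⟨e, ⟨h1, h2, h3, h4⟩, h5⟩, h6, T, h7, h8, h9⟩ := h
  have hS : Sc W e := ⟨fun β n m => h1 β n m, h2, h3, h4, h6⟩
  exact ⟨⟨_, fr_isBScale hS, fr_unb hS, fr_frechet hS h5⟩,
    ⟨_, nf_isBScale hS h8, nf_unb hS, nf_not_frechet h7 h8 h9⟩⟩

end Pool.Agent.NH90.BS
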