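import Pool.Agent.W910.FC.Product

/-!
# The product of a countably closed preorder and a ccc preorder

Countable families of names for the product are the same as names for the ccc factor, below a
condition of the countably closed factor.
-/

set_option autoImplicit false

namespace Pool.Agent.NH90.BS

open Cardinal Pool.Agent.Helper669.Forcing Pool.Agent.W684.FM Pool.Agent.W910.FC

/-- decreasing sequences indexed by `ℕ` have lower bounds -/
def ClosedSeq (Q : Type) [Preorder Q] : Prop :=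
  ∀ C : ℕ → Q, (∀ n, C (n + 1) ≤ C n) → ∃ q, ∀ n, q ≤ C n

section

variable {Q P : Type} [Preorder Q] [Preorder P]

theorem countable_Iio_om1 (i : Om1) : (Set.Iio i).Countable := by
  have h3 := Cardinal.mk_Iio_toType_ord_lt i
  rw [← Cardinal.le_aleph0_iff_set_countable]
  have : #(Set.Iio i) < Order.succ ℵ₀ := by
    rw [Cardinal.succ_aleph0]
    exact h3
  exact Order.lt_succ_iff.1 this

/-- lower bounds for decreasing sequences of countable length -/
theorem ClosedSeq.lower (hQ : ClosedSeq Q) (i : Om1) (C : Om1 → Q) (q0 : Q)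
    (hC : ∀ j k, j < k → k < i → C k ≤ C j) (hq0 : ∀ j, j < i → C j ≤ q0) :
    ∃ q ≤ q0, ∀ j, j < i → q ≤ C j := by
  rcases (Set.Iio i).eq_empty_or_nonempty with h | hne
  · refine ⟨q0, le_rfl, fun j hj => ?_⟩
    have : j ∈ Set.Iio i := hj
    rw [h] at this
    exact absurd this (Set.notMem_empty j)
  · obtain ⟨e, he⟩ := (countable_Iio_om1 i).exists_eq_range hne
    have hei : ∀ n, e n < i := fun n => by
      have : e n ∈ Set.Iio i := by
        rw [he]
        exact ⟨n, rfl⟩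
      exact this
    let m : ℕ → Om1 := fun n => n.rec (e 0) fun k x => max x (e (k + 1))
    have hm1 : ∀ n, m (n + 1) = max (m n) (e (n + 1)) := fun n => rfl
    have hm : ∀ n, m n < i := by
      intro n
      induction n with
      | zero => exact hei 0
      | succ n ih =>
        rw [hm1]
        exact max_lt ih (hei _)
    have hme : ∀ n, e n ≤ m n := by
      intro n
      cases n with
      | zero => exact le_rfl
      | succ n =>
        rw [hm1]
        exact le_max_right _ _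
    have hmono : ∀ j k, j ≤ k → k < i → C k ≤ C j := by
      intro j k hjk hk
      rcases hjk.lt_or_eq with h | rfl
      · exact hC j k h hk
      · exact le_rfl
    obtain ⟨q, hq⟩ := hQ (fun n => C (m n)) (fun n =>
      hmono (m n) (m (n + 1)) (by rw [hm1]; exact le_max_left _ _) (hm (n + 1)))
    refine ⟨q, (hq 0).trans (hq0 _ (hm 0)), fun j hj => ?_⟩
    have : j ∈ Set.Iio i := hj
    rw [he] at this
    obtain ⟨n, rfl⟩ := this
    exact (hq n).trans (hmono _ _ (hme n) (hm n))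

theorem exists_dense_dec1 (hQ : ClosedSeq Q) (hP : PCCC P) (φ : Set (Q × P)) (hφ : Down φ)
    (q0 : Q) : ∃ q ≤ q0, ∀ p, ∃ p' ≤ p, Dec φ (q, p') := by
  classical
  by_contra hcon
  push Not at hcon
  have : Nonempty (Q × P) := by
    obtain ⟨p, _⟩ := hcon q0 le_rfl
    exact ⟨(q0, p)⟩
  obtain ⟨F, hF1, hF2⟩ := exists_rec (S := Q × P)
    (fun s t => t.1 ≤ s.1 ∧ ¬ ∃ r, r ≤ s.2 ∧ r ≤ t.2) (fun _ s => s.1 ≤ q0 ∧ Dec φ s) (by
      intro i F h1 h2
      obtain ⟨q, hq, hqF⟩ := hQ.lower i (fun j => (F j).1) q0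
        (fun j k hjk hk => (h2 j k hjk hk).1) (fun j hj => (h1 j hj).1)
      obtain ⟨p, hp⟩ := hcon q hq
      obtain ⟨⟨q', p'⟩, ⟨hq', hp'⟩, hdec⟩ := exists_dec φ (q, p)
      refine ⟨(q', p'), ⟨le_trans hq' hq, hdec⟩, fun j hj => ⟨le_trans hq' (hqF j hj), ?_⟩⟩
      rintro ⟨r, hr1, hr2⟩
      refine hp r (le_trans hr2 hp') ?_
      exact (h1 j hj).2.down hφ (show (q, r) ≤ F j from ⟨hqF j hj, hr1⟩))
  have hinj : Function.Injective fun i => (F i).2 := by
    intro i j h
    by_contra hne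
    rcases lt_or_gt_of_ne hne with h1 | h1
    · exact (hF2 i j h1).2 ⟨(F i).2, le_rfl, h.le⟩
    · exact (hF2 j i h1).2 ⟨(F i).2, h.le, le_rfl⟩
  have h3 : (Set.range fun i => (F i).2).Countable := by
    apply hP
    rintro _ ⟨i, rfl⟩ _ ⟨j, rfl⟩ hne ⟨r, h4, h5⟩
    have hij : i ≠ j := fun h => hne (by rw [h])
    rcases lt_or_gt_of_ne hij with h1 | h1
    · exact (hF2 i j h1).2 ⟨r, h4, h5⟩
    · exact (hF2 j i h1).2 ⟨r, h5, h4⟩
  have h4 : (Set.univ : Set Om1).Countable := by
    refine Set.countable_of_injective_of_countable_image (f := fun i => (F i).2) hinj.injOn ?_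
    rwa [Set.image_univ]
  rw [← Cardinal.le_aleph0_iff_set_countable, Cardinal.mk_univ, Cardinal.mk_ord_toType] at h4
  exact absurd h4 (not_le.2 Cardinal.aleph0_lt_aleph_one)

/-- one name -/
theorem exists_name1 (hQ : ClosedSeq Q) (hP : PCCC P) (N : Set (Q × P)) (q0 : Q) :
    ∃ q ≤ q0, ∃ A : Set P, Tr q (meets N) (meets A) := by
  obtain ⟨q, hq, hdec⟩ := exists_dense_dec1 hQ hP (meets N) (down_meets N) q0
  refine ⟨q, hq, {p | (q, p) ∈ meets N}, fun q' hq' p => ⟨fun h p1 hp1 => ?_, fun h => ?_⟩⟩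
  · obtain ⟨p2, hp2, h2⟩ := hdec p1
    rcases h2 with h2 | h2
    · exact ⟨p2, hp2, p2, h2, le_rfl⟩
    · exact absurd (down_meets N _ h (q', p2) ⟨le_rfl, le_trans hp2 hp1⟩)
        (h2 (q', p2) ⟨hq', le_rfl⟩)
  · apply meets_of_dense
    rintro ⟨q3, p3⟩ ⟨h3, h4⟩
    obtain ⟨r, hr, s, hs, hrs⟩ := h p3 h4
    exact ⟨(q3, r), ⟨le_rfl, hr⟩, down_meets N _ hs (q3, r) ⟨le_trans h3 hq', hrs⟩⟩

/-- countably many names -/
theorem exists_names1 (hQ : ClosedSeq Q) (hP : PCCC P) {ι : Type} [Countable ι]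
    (N : ι → Set (Q × P)) (q0 : Q) :
    ∃ q ≤ q0, ∃ A : ι → Set P, ∀ i, Tr q (meets (N i)) (meets (A i)) := by
  classical
  rcases isEmpty_or_nonempty ι with he | hne
  · exact ⟨q0, le_rfl, fun i => (he.false i).elim, fun i => (he.false i).elim⟩
  obtain ⟨e, he⟩ := exists_surjective_nat ι
  choose F hF1 A hA using fun (n : ℕ) (q : Q) => exists_name1 hQ hP (N (e n)) q
  let C : ℕ → Q := fun n => n.rec (F 0 q0) fun k q => F (k + 1) q
  have hC1 : ∀ n, C (n + 1) = F (n + 1) (C n) := fun n => rfl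
  obtain ⟨q, hq⟩ := hQ C (fun n => by
    rw [hC1]
    exact hF1 _ _)
  have hex : ∀ n, ∃ B : Set P, Tr q (meets (N (e n))) (meets B) := by
    intro n
    cases n with
    | zero => exact ⟨A 0 q0, (hA 0 q0).mono (hq 0)⟩
    | succ n =>
      refine ⟨A (n + 1) (C n), (hA (n + 1) (C n)).mono ?_⟩
      rw [← hC1]
      exact hq (n + 1)
  choose i hi using he
  choose B hB using hex
  refine ⟨q, (hq 0).trans (hF1 0 q0), fun x => B (i x), fun x => ?_⟩
  have h1 := hB (i x)
  rwa [hi x] at h1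

end

end Pool.Agent.NH90.BS
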