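import Pool.Agent.NH90.BS.Defs

open Cardinal

namespace Pool.Agent.NH90.BS

/-! ### codes -/

theorem cd_append (s : Node) (n : ℕ) : cd (s ++ [n]) = Nat.pair (cd s) n + 1 := by
  simp [cd, cr]

theorem cd_lt_append (s : Node) (n : ℕ) : cd s < cd (s ++ [n]) := by
  rw [cd_append]
  exact Nat.lt_succ_of_le (Nat.left_le_pair _ _)

theorem lt_cd_append (s : Node) (n : ℕ) : n < cd (s ++ [n]) := by
  rw [cd_append]
  exact Nat.lt_succ_of_le (Nat.right_le_pair _ _)

theorem cd_append_lt (s : Node) {n m : ℕ} (h : n < m) : cd (s ++ [n]) < cd (s ++ [m]) := by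
  rw [cd_append, cd_append]
  exact Nat.succ_lt_succ (Nat.pair_lt_pair_right _ h)

theorem cd_le_append (s u : Node) : cd s ≤ cd (s ++ u) := by
  induction u using List.reverseRecOn with
  | nil => simp
  | append_singleton u n ih =>
    rw [← List.append_assoc]
    exact ih.trans (cd_lt_append _ _).le

theorem cd_lt_of_prefix {s t : Node} (h : s <+: t) (hne : s ≠ t) : cd s < cd t := by
  obtain ⟨u, rfl⟩ := h
  cases u with
  | nil => simp at hne
  | cons n u =>
    have : s ++ n :: u = (s ++ [n]) ++ u := by simp
    rw [this]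
    exact (cd_lt_append s n).trans_le (cd_le_append _ _)

theorem cd_le_of_prefix {s t : Node} (h : s <+: t) : cd s ≤ cd t := by
  obtain ⟨u, rfl⟩ := h
  exact cd_le_append _ _

theorem cr_injective : Function.Injective cr := by
  intro l
  induction l with
  | nil =>
    intro l' h
    cases l' with
    | nil => rfl
    | cons n l' => simp [cr] at h
  | cons n l ih =>
    intro l' h
    cases l' with
    | nil => simp [cr] at h
    | cons m l' =>
      simp only [cr, Nat.add_right_cancel_iff, Nat.pair_eq_pair] at h
      rw [h.2, ih h.1]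

theorem cd_injective : Function.Injective cd := by
  intro s t h
  exact List.reverse_injective (cr_injective h)

theorem finite_cd_lt (N : ℕ) : {s : Node | cd s < N}.Finite := by
  apply Set.Finite.of_finite_image (f := cd)
  · exact (Set.finite_Iio N).subset (by rintro _ ⟨s, hs, rfl⟩; exact hs)
  · exact cd_injective.injOn

theorem finite_of_cd {X : Set Node} (N : ℕ) (h : ∀ s ∈ X, cd s < N) : X.Finite :=
  (finite_cd_lt N).subset h

theorem exists_of_infinite {X : Set Node} (h : X.Infinite) (N : ℕ) : ∃ s ∈ X, N ≤ cd s := by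
  by_contra hcon
  push Not at hcon
  exact h (finite_of_cd N hcon)

/-! ### regularity of `W` -/

section

variable {W : Type} [LinearOrder W] [WellFoundedLT W]

theorem mk_le_of_initial {κ : Cardinal.{0}} (h : ∀ γ : W, #{β : W // β < γ} < κ) : #W ≤ κ := by
  by_contra hcon
  rw [not_le] at hcon
  have h1 : κ.ord < Ordinal.type (fun a b : W => a < b) := by
    rw [← not_le]
    intro hle
    have h3 := Ordinal.card_le_card hle
    rw [Ordinal.card_type, Cardinal.card_ord] at h3
    exact absurd h3 (not_le.2 hcon)
  obtain ⟨γ, hγ⟩ := Ordinal.typein_surj (fun a b : W => a < b) h1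
  have h2 := Ordinal.card_typein (r := fun a b : W => a < b) γ
  rw [hγ, Cardinal.card_ord] at h2
  exact absurd h2 (h γ).ne'

theorem exists_iso (h : ∀ γ : W, #{β : W // β < γ} < #W) : Nonempty (W ≃o (#W).ord.ToType) := by
  have h1 : Ordinal.type (fun a b : W => a < b) = (#W).ord := by
    apply le_antisymm
    · by_contra hcon
      rw [not_le] at hcon
      obtain ⟨γ, hγ⟩ := Ordinal.typein_surj (fun a b : W => a < b) hcon
      have h2 := Ordinal.card_typein (r := fun a b : W => a < b) γ
      rw [hγ, Cardinal.card_ord] at h2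
      exact absurd h2 (h γ).ne'
    · rw [Cardinal.ord_le, Ordinal.card_type]
  have h2 : Ordinal.type (fun a b : W => a < b) =
      Ordinal.type (fun a b : (#W).ord.ToType => a < b) := by
    rw [h1, Ordinal.type_toType]
  obtain ⟨e⟩ := Ordinal.type_eq.1 h2
  exact ⟨OrderIso.ofRelIsoLT e⟩

end

end Pool.Agent.NH90.BS
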