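import Pool.Agent.NH90.BS.Names

/-!
# Names of the members of the scale
-/

set_option autoImplicit false

namespace Pool.Agent.NH90.BS

open Cardinal Pool.Agent.Helper669.Forcing Pool.Agent.W684.FM Pool.Agent.W910.FC

section

variable {X : Type} {Y : Type} {P : Type} [Preorder P]

theorem Add_snoc {Q : X → ℕ → Y → Set P} {s t : List Y} {F : Finset X} {p : P} {v : Y}
    (h : p ∈ Add Q s t F) (hv : ∀ i ∈ F, p ∈ Q i t.length v) : p ∈ Add Q s (t ++ [v]) F := by
  intro n hn hs i hi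
  rw [List.length_append, List.length_singleton] at hn
  rcases Nat.lt_succ_iff_lt_or_eq.1 hn with h1 | h1
  · have h2 : (t ++ [v])[n] = t[n] := List.getElem_append_left h1
    rw [h2]
    exact h n h1 hs i hi
  · subst h1
    have h2 : (t ++ [v])[t.length] = v := by simp
    rw [h2]
    exact hv i hi

theorem Add_self {Q : X → ℕ → Y → Set P} (s : List Y) (F : Finset X) (p : P) :
    p ∈ Add Q s s F := fun _ h h' => absurd h (not_lt.2 h')

/-- long extensions -/
theorem exists_long {q0 : P} {G : List Y → Y → Prop} {Q : X → ℕ → Y → Set P}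
    (hQ : ∀ i n v, Reg (Q i n v))
    (hext : ∀ (F : Finset X) (s : List Y), VS G s → ∀ q ≤ q0, ∃ r ≤ q, ∃ v, G s v ∧
      ∀ i ∈ F, r ∈ Q i s.length v) (F : Finset X) (s : List Y) (hs : VS G s) (k : ℕ) :
    ∀ q ≤ q0, ∃ r ≤ q, ∃ t, s <+: t ∧ VS G t ∧ k ≤ t.length ∧ r ∈ Add Q s t F := by
  induction k with
  | zero => exact fun q _ => ⟨q, le_rfl, s, List.prefix_rfl, hs, Nat.zero_le _, Add_self _ _ _⟩
  | succ k ih =>
    intro q hq
    obtain ⟨r, hr, t, h1, h2, h3, h4⟩ := ih q hq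
    obtain ⟨u, hu, v, hv, hvQ⟩ := hext F t h2 r (hr.trans hq)
    refine ⟨u, hu.trans hr, t ++ [v], h1.trans (List.prefix_append _ _), h2.snoc hv, ?_,
      Add_snoc ((reg_Add hQ _ _ _).1 _ h4 _ hu) hvQ⟩
    rw [List.length_append, List.length_singleton]
    omega

end

variable {X W : Type} [LinearOrder W] [WellFoundedLT W]

/-- properties of the name of the member of the scale with index `α` -/
structure GoodE (m : W → ℕ) (α : W) (e : {β : W // β < α} → ℕ → ℕ → Set (PP X W))
    (f : ℕ → ℕ → Set (PP X W)) : Prop where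
  isFun : ∀ p, p ∈ IsFun f
  mono : ∀ p n n', n < n' → p ∈ LtN (f n) (f n')
  dom : ∀ β p, p ∈ fex fun N => fall fun n => fall fun _ : N ≤ n => LtN (e β n) (f n)
  big : ∀ p, p ∈ LtN' (m α) (f 0)
  unb : ∀ (g : ℕ → ℕ → Set (PP X W)) (A : Set (PP X W)), (∀ n a, Below α (g n a)) → Below α A →
    meets A = fnot (IsFun g) → ∀ p ∈ IsFun g, ∀ N,
      p ∈ fex fun n => fand (fground (N ≤ n)) (LtN (g n) (f n))

theorem sorted_of_VS {c : ℕ} {s : List ℕ} (h : VS (fun s v => (∀ w ∈ s, w < v) ∧ c < v) s)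
    {n n' : ℕ} (hn : n < n') (hn' : n' < s.length) : s[n] < s[n'] := by
  have h1 := (h.get hn').1
  apply h1
  rw [List.mem_iff_getElem]
  exact ⟨n, by rw [List.length_take]; omega, by simp⟩

theorem exists_goodE [Infinite X] (hW : Bdd X W) (m : W → ℕ) (α : W) (hα : #{β : W // β < α} ≤ #X)
    (e : {β : W // β < α} → ℕ → ℕ → Set (PP X W)) (he : ∀ β p, p ∈ IsFun (e β)) :
    ∃ f, GoodE m α e f := by
  classical
  let top : PP X W := ⟨∅, valid_empty _⟩
  have htop : ∀ p : PP X W, p ≤ top := fun p => Finset.empty_subset _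
  have hα' : #(Option {β : W // β < α}) ≤ #X := by
    rw [Cardinal.mk_option]
    calc #{β : W // β < α} + 1 ≤ #X + #X :=
          add_le_add hα (Cardinal.one_le_aleph0.trans (Cardinal.aleph0_le_mk X))
      _ = #X := Cardinal.add_eq_self (Cardinal.aleph0_le_mk X)
  obtain ⟨c, hc⟩ := exists_surj hα'
  -- all names, with a dummy
  let e' : X → ℕ → ℕ → Set (PP X W) := fun i =>
    match c i with
    | none => fun _ a => {_p | a = 0}
    | some β => e β
  have he' : ∀ i p, p ∈ IsFun (e' i) := by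
    intro i p
    rcases hi : c i with _ | β
    · simp only [e', hi]
      refine ⟨fun n => mem_fex_of_mem 0 (down_meets _) (meets_of_mem rfl), fun n a b => ?_⟩
      apply fimp_intro
      rintro q hq ⟨h1, h2⟩
      obtain ⟨_, _, _, h3, _⟩ := h1 q le_rfl
      obtain ⟨_, _, _, h4, _⟩ := h2 q le_rfl
      have h3' : a = 0 := h3
      have h4' : b = 0 := h4
      rw [mem_fground, h3', h4']
    · simp only [e', hi]
      exact he β p
  let G : List ℕ → ℕ → Prop := fun s v => (∀ w ∈ s, w < v) ∧ m α < v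
  let Q : X → ℕ → ℕ → Set (PP X W) := fun i n v => LtV (e' i n) v
  have hQ : ∀ i n v, Reg (Q i n v) := fun _ _ _ => reg_LtV _ _
  -- one more term, above a given number
  have hext0 : ∀ (F : Finset X) (s : List ℕ) (b : ℕ), VS G s → ∀ q : PP X W, ∃ r ≤ q, ∃ v,
      b < v ∧ G s v ∧ ∀ i ∈ F, r ∈ Q i s.length v := by
    intro F s b _ q
    obtain ⟨r, hr, y, hy⟩ := exists_vals e' F s.length q (fun i _ => he' i q)
    have hsb : ∀ w ∈ s, w ≤ s.sum := fun w hw => List.le_sum_of_mem hw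
    refine ⟨r, hr, b + s.sum + m α + F.sup y + 1, by omega, ⟨fun w hw => ?_, by omega⟩,
      fun i hi => ?_⟩
    · have := hsb w hw
      omega
    · refine mem_LtV (he' i r) (hy i hi) ?_
      have := Finset.le_sup (f := y) hi
      omega
  have hext : ∀ (F : Finset X) (s : List ℕ), VS G s → ∀ q ≤ top, ∃ r ≤ q, ∃ v, G s v ∧
      ∀ i ∈ F, r ∈ Q i s.length v := by
    intro F s hs q _
    obtain ⟨r, hr, v, _, h1, h2⟩ := hext0 F s 0 hs q
    exact ⟨r, hr, v, h1, h2⟩
  obtain ⟨f, hf1, hf2, hf3, hf4⟩ := gen_seq hW top α G Q hQ hext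
  have hfun : ∀ p, p ∈ IsFun f := fun p => down_IsFun _ _ hf1 _ (htop p)
  refine ⟨f, hfun, ?_, ?_, ?_, ?_⟩
  · intro p n n' hn a b
    rw [mem_fimp]
    rintro q hq ⟨h1, h2⟩
    obtain ⟨r, hr, s, ⟨hs1, hs2⟩, hs3⟩ := mem_fex.1 (hf2 (n' + 1)) q (htop q)
    refine ⟨r, hr, ?_⟩
    have h3 : n' < s.length := hs2
    have h4 : n < s.length := hn.trans h3
    have h5 := IsFun.unique (hfun r) (down_meets _ _ h1 _ hr) (hs3 n h4)
    have h6 := IsFun.unique (hfun r) (down_meets _ _ h2 _ hr) (hs3 n' h3)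
    rw [mem_fground, h5, h6]
    exact sorted_of_VS hs1 hn h3
  · intro β p
    obtain ⟨i, hi⟩ := hc (some β)
    refine mem_fex_mono (down_fex _ _ (hf3 i) _ (htop p)) fun N q hq h n hn => ?_
    have h1 := h n hn
    simp only [Q, e', hi] at h1
    exact LtN_of_LtV h1
  · intro p b
    rw [mem_fimp]
    intro q hq h1
    obtain ⟨r, hr, s, ⟨hs1, hs2⟩, hs3⟩ := mem_fex.1 (hf2 1) q (htop q)
    refine ⟨r, hr, ?_⟩
    have h3 : 0 < s.length := hs2
    have h5 := IsFun.unique (hfun r) (down_meets _ _ h1 _ hr) (hs3 0 h3)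
    have h6 := (hs1.get h3).2
    rw [mem_fground, h5]
    exact h6
  · intro g A hg hA hAn p hp N
    let D : List ℕ → Set (PP X W) := fun s =>
      A ∪ {r | ∃ n a, N ≤ n ∧ ∃ h : n < s.length, a < s[n] ∧ r ∈ g n a}
    have hD : ∀ s, Below α (D s) := by
      rintro s r (hr | ⟨n, a, _, _, _, hr⟩)
      · exact hA r hr
      · exact hg n a r hr
    have h1 := hf4 D hD (by
      intro F s hs q hq
      obtain ⟨q1, hq1, hdec⟩ := exists_decides (IsFun g) q
      rcases hdec with hdec | hdec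
      · obtain ⟨q2, hq2, t, ht1, ht2, ht3, ht4⟩ := exists_long hQ hext F s hs N q1 (htop _)
        obtain ⟨q3, hq3, a, ha⟩ := IsFun.total (down_IsFun _ _ hdec _ hq2) t.length
        obtain ⟨q4, hq4, v, hv1, hv2, hv3⟩ := hext0 F t a ht2 q3
        refine ⟨q4, hq4.trans (hq3.trans (hq2.trans hq1)), t ++ [v],
          ht1.trans (List.prefix_append _ _), ht2.snoc hv2,
          Add_snoc ((reg_Add hQ _ _ _).1 _ ht4 _ (hq4.trans hq3)) hv3, ?_⟩
        intro r hr
        obtain ⟨r', hr', s', hs', hrs'⟩ := ha r (hr.trans hq4)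
        refine ⟨r', hr', s', Or.inr ⟨t.length, a, ht3, by simp, ?_, hs'⟩, hrs'⟩
        simpa using hv1
      · refine ⟨q1, hq1, s, List.prefix_rfl, hs, Add_self _ _ _, ?_⟩
        rw [← hAn] at hdec
        intro r hr
        obtain ⟨r', hr', s', hs', hrs'⟩ := hdec r hr
        exact ⟨r', hr', s', Or.inl hs', hrs'⟩)
    rw [mem_fex]
    intro q hq
    obtain ⟨r, hr, s, _, hs2, hs3⟩ := mem_fex.1 h1 q (htop q)
    obtain ⟨u, hu, w, hw, huw⟩ := hs3 r le_rfl
    have hup : u ≤ p := hu.trans (hr.trans hq)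
    rcases hw with hw | ⟨n, a, hn, hns, hlt, hw⟩
    · exfalso
      have h2 : u ∈ meets A := meets_of_le hw huw
      rw [hAn] at h2
      exact h2 u le_rfl (down_IsFun _ _ hp _ hup)
    · refine ⟨u, hu.trans hr, n, hn, fun a' b' => ?_⟩
      rw [mem_fimp]
      rintro v hv ⟨h3, h4⟩
      refine ⟨v, le_rfl, ?_⟩
      have h5 := IsFun.unique (down_IsFun _ _ hp _ (hv.trans hup)) h3
        (down_meets _ _ (meets_of_le hw huw) _ hv)
      have h6 := IsFun.unique (hfun v) h4
        (down_meets _ _ ((reg_Init s f).1 _ hs2 _ hu n hns) _ hv)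
      rw [mem_fground, h5, h6]
      exact hlt

/-- the names of the members of the scale -/
theorem exists_scale [Infinite X] (hW : Bdd X W) (m : W → ℕ) (hα : ∀ α : W, #{β : W // β < α} ≤ #X) :
    ∃ e : W → ℕ → ℕ → Set (PP X W), ∀ α, GoodE m α (fun β => e β.1) (e α) := by
  classical
  let E : W → ℕ → ℕ → Set (PP X W) := WellFounded.fix (wellFounded_lt (α := W)) fun α E' =>
    if h : ∃ f, GoodE m α (fun β : {β : W // β < α} => E' β.1 β.2) f then h.choose
    else fun _ _ => ∅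
  have hE : ∀ α, E α = if h : ∃ f, GoodE m α (fun β : {β : W // β < α} => E β.1) f then h.choose
      else fun _ _ => ∅ := fun α => by
    simp only [E]
    rw [WellFounded.fix_eq]
  refine ⟨E, fun α => ?_⟩
  induction α using WellFoundedLT.induction with
  | ind α ih =>
    have h1 : ∃ f, GoodE m α (fun β : {β : W // β < α} => E β.1) f :=
      exists_goodE hW m α (hα α) _ fun β p => (ih β.1 β.2).isFun p
    have h2 : E α = h1.choose := by rw [hE α, dif_pos h1]
    rw [h2]
    exact h1.choose_spec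

end Pool.Agent.NH90.BS
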