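import Pool.Agent.NH90.BS.Gen

/-!
# Generic sequences over a stage of the iteration: conclusion
-/

set_option autoImplicit false

namespace Pool.Agent.NH90.BS

open Cardinal Pool.Agent.Helper669.Forcing Pool.Agent.W684.FM Pool.Agent.W910.FC

variable {X W : Type} [LinearOrder W] [WellFoundedLT W]

/-- the conditions of the preorder can be coded by the elements of `X` -/
theorem exists_coding [Infinite X] {Y : Type} [Countable Y] (G : List Y → Y → Prop) :
    ∃ (stem : X → List Y) (fin : X → Finset X), (∀ x, VS G (stem x)) ∧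
      ∀ s F, VS G s → ∃ x, stem x = s ∧ fin x = F := by
  have h1 : #({s : List Y // VS G s} × Finset X) ≤ #X := by
    rw [Cardinal.mk_prod, Cardinal.lift_id, Cardinal.lift_id, Cardinal.mk_finset_of_infinite]
    calc #{s : List Y // VS G s} * #X ≤ #X * #X :=
          mul_le_mul' (mk_le_aleph0.trans (Cardinal.aleph0_le_mk X)) le_rfl
      _ = #X := Cardinal.mul_eq_self (Cardinal.aleph0_le_mk X)
  obtain ⟨f⟩ := h1
  have : Nonempty ({s : List Y // VS G s} × Finset X) := ⟨⟨⟨[], VS_nil G⟩, ∅⟩⟩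
  have hf := Function.invFun_surjective f.injective
  refine ⟨fun x => (Function.invFun f x).1.1, fun x => (Function.invFun f x).2,
    fun x => (Function.invFun f x).1.2, fun s F hs => ?_⟩
  obtain ⟨x, hx⟩ := hf (⟨s, hs⟩, F)
  exact ⟨x, by simp only [hx], by simp only [hx]⟩

section

variable {Y : Type} {P : Type} [Preorder P]

/-- `s` is an initial segment of the named sequence -/
def Init (s : List Y) (f : ℕ → Y → Set P) : Set P :=
  fall fun n => fall fun h : n < s.length => meets (f n s[n])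

theorem reg_Init (s : List Y) (f : ℕ → Y → Set P) : Reg (Init s f) :=
  reg_fall fun _ => reg_fall fun _ => reg_meets _

end

theorem gen_seq [Infinite X] (hW : Bdd X W) {Y : Type} [Countable Y] (q0 : PP X W) (α₀ : W)
    (G : List Y → Y → Prop) (Q : X → ℕ → Y → Set (PP X W)) (hQ : ∀ i n v, Reg (Q i n v))
    (hext : ∀ (F : Finset X) (s : List Y), VS G s → ∀ q ≤ q0, ∃ r ≤ q, ∃ v, G s v ∧
      ∀ i ∈ F, r ∈ Q i s.length v) :
    ∃ f : ℕ → Y → Set (PP X W), q0 ∈ IsFun f ∧
      (∀ k, q0 ∈ fex fun s : List Y => fand (fground (VS G s ∧ k ≤ s.length)) (Init s f)) ∧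
      (∀ i, q0 ∈ fex fun N => fall fun n => fall fun _ : N ≤ n => fall fun v =>
        fimp (meets (f n v)) (Q i n v)) ∧
      ∀ D : List Y → Set (PP X W), (∀ s, Below α₀ (D s)) →
        (∀ (F : Finset X) (s : List Y), VS G s → ∀ q ≤ q0, ∃ r ≤ q, ∃ t, s <+: t ∧ VS G t ∧
          r ∈ Add Q s t F ∧ r ∈ meets (D t)) →
        q0 ∈ fex fun s : List Y => fand (fground (VS G s)) (fand (Init s f) (meets (D s))) := by
  classical
  obtain ⟨stem, fin, hst, hcode⟩ := exists_coding (X := X) G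
  let R := RN (P := PP X W) stem fin Q
  have hRreg : ∀ x y, meets (R x y) = R x y := fun x y => meets_reg (reg_RN hQ x y)
  have hpre : q0 ∈ IsPreN R := RN_pre hQ q0
  have hccc : q0 ∈ CCCN R := RN_ccc pccc (fun x y => by
    obtain ⟨z, h1, h2⟩ := hcode (stem x) (fin x ∪ fin y) (hst x)
    exact ⟨z, h1, h2 ▸ Finset.subset_union_left, h2 ▸ Finset.subset_union_right⟩) q0
  obtain ⟨F, hfil, hgen⟩ := exists_gen hW hpre hccc α₀
  obtain ⟨hfil1, _, hfil3⟩ := hfil
  let top : PP X W := ⟨∅, valid_empty _⟩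
  have htop : ∀ p : PP X W, p ≤ top := fun p => Finset.empty_subset _
  -- ground model dense sets
  have hgr : ∀ S : X → Prop, (∀ (x : X), ∀ q ≤ q0, ∃ r ≤ q, ∃ y, S y ∧ r ∈ R y x) →
      q0 ∈ fex fun x => fand (meets (F x)) (fground (S x)) := by
    intro S hS
    have h1 := hgen (fun x => {p | p = top ∧ S x}) (by
      rintro x s ⟨hs, _⟩ a ha
      rw [hs] at ha
      exact absurd ha (Finset.notMem_empty _)) (by
      intro x
      rw [mem_fex]
      intro q hq
      obtain ⟨r, hr, y, hy, hry⟩ := hS x q hq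
      exact ⟨r, hr, y, meets_of_le (s := top) ⟨rfl, hy⟩ (htop _), meets_of_mem hry⟩)
    rw [mem_fex] at h1 ⊢
    intro q hq
    obtain ⟨r, hr, x, h2, h3⟩ := h1 q hq
    obtain ⟨_, _, _, ⟨_, h4⟩, _⟩ := h3 r le_rfl
    exact ⟨r, hr, x, h2, h4⟩
  -- long sequences
  have hlen : ∀ (x : X) (k : ℕ), ∀ q ≤ q0, ∃ r ≤ q, ∃ y, k ≤ (stem y).length ∧ r ∈ R y x := by
    intro x k
    induction k with
    | zero =>
      intro q hq
      exact ⟨q, le_rfl, x, Nat.zero_le _, by
        rw [← hRreg]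
        exact (RN_pre hQ q).1 x⟩
    | succ k ih =>
      intro q hq
      obtain ⟨r, hr, y, hy, hry⟩ := ih q hq
      obtain ⟨r', hr', v, hv, hvQ⟩ := hext (fin y) (stem y) (hst y) r (hr.trans hq)
      obtain ⟨z, hz1, hz2⟩ := hcode (stem y ++ [v]) (fin y) ((hst y).snoc hv)
      refine ⟨r', hr'.trans hr, z, ?_, ?_⟩
      · rw [hz1, List.length_append, List.length_singleton]
        omega
      · have h1 : r' ∈ R z y := by
          refine ⟨⟨by rw [hz1]; exact List.prefix_append _ _, by rw [hz2]⟩, ?_⟩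
          intro n h h' i hi
          have hn : n = (stem y).length := by
            rw [hz1, List.length_append, List.length_singleton] at h
            omega
          subst hn
          have h2 : (stem z)[(stem y).length] = v := by
            simp only [hz1]
            simp
          rw [h2]
          exact hvQ i hi
        have h2 := IsPreN.trans (RN_pre hQ r') (meets_of_mem h1)
          (meets_of_mem ((reg_RN hQ y x).1 _ hry _ hr'))
        rwa [hRreg] at h2
  let f : ℕ → Y → Set (PP X W) := fun n v =>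
    {p | ∃ x, p ∈ meets (F x) ∧ ∃ h : n < (stem x).length, (stem x)[n] = v}
  have hfdown : ∀ n v, Down (f n v) := by
    rintro n v p ⟨x, hx, h⟩ q hq
    exact ⟨x, down_meets _ _ hx _ hq, h⟩
  -- two members of the filter
  have hdir : ∀ q ≤ q0, ∀ x y, q ∈ meets (F x) → q ∈ meets (F y) → ∃ r ≤ q, ∃ z,
      r ∈ meets (F z) ∧ r ∈ R z x ∧ r ∈ R z y := by
    intro q hq x y hx hy
    obtain ⟨r, hr, h1⟩ := mem_fimp.1 (hfil3 x y) q hq ⟨hx, hy⟩
    obtain ⟨s, hs, z, hz1, hz2, hz3⟩ := mem_fex.1 h1 r le_rfl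
    rw [hRreg] at hz2 hz3
    exact ⟨s, hs.trans hr, z, hz1, hz2, hz3⟩
  have hInit : ∀ q x, q ∈ meets (F x) → q ∈ Init (stem x) f := by
    intro q x hq n h
    exact meets_of_mem ⟨x, hq, h, rfl⟩
  refine ⟨f, ⟨fun n => ?_, fun n v v' => ?_⟩, fun k => ?_, fun i => ?_, fun D hD hDd => ?_⟩
  · rw [mem_fex]
    intro q hq
    obtain ⟨r, hr, x, hx, hx2⟩ := mem_fex.1 (hgr (fun x => n + 1 ≤ (stem x).length)
      (fun x => hlen x (n + 1))) q hq
    have hx3 : n + 1 ≤ (stem x).length := hx2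
    exact ⟨r, hr, (stem x)[n], hInit r x hx n hx3⟩
  · rw [mem_fimp]
    rintro q hq ⟨h1, h2⟩
    obtain ⟨r, hr, x, hx, hxn, rfl⟩ := exists_of_meets (hfdown n v) h1
    obtain ⟨s, hs, y, hy, hyn, rfl⟩ := exists_of_meets (hfdown n v') (down_meets _ _ h2 _ hr)
    obtain ⟨t, ht, z, _, hzx, hzy⟩ := hdir s (hs.trans (hr.trans hq)) x y
      (down_meets _ _ hx _ hs) hy
    refine ⟨t, ht.trans (hs.trans hr), ?_⟩
    rw [mem_fground]
    obtain ⟨⟨h3, _⟩, _⟩ := hzx
    obtain ⟨⟨h4, _⟩, _⟩ := hzy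
    rw [List.prefix_iff_getElem] at h3 h4
    obtain ⟨_, h3⟩ := h3
    obtain ⟨_, h4⟩ := h4
    rw [h3 n hxn, h4 n hyn]
  · rw [mem_fex]
    intro q hq
    obtain ⟨r, hr, x, hx, hx2⟩ := mem_fex.1 (hgr (fun x => k ≤ (stem x).length)
      (fun x => hlen x k)) q hq
    exact ⟨r, hr, stem x, ⟨hst x, hx2⟩, hInit r x hx⟩
  · rw [mem_fex]
    intro q hq
    obtain ⟨r, hr, x, hx, hx2⟩ := mem_fex.1 (hgr (fun x => i ∈ fin x) (fun x q hq => by
      obtain ⟨z, hz1, hz2⟩ := hcode (stem x) (insert i (fin x)) (hst x)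
      refine ⟨q, le_rfl, z, by rw [hz2]; exact Finset.mem_insert_self _ _,
        ⟨by rw [hz1], by rw [hz2]; exact Finset.subset_insert _ _⟩, ?_⟩
      intro n h h'
      rw [hz1] at h
      exact absurd h (not_lt.2 h'))) q hq
    have hx3 : i ∈ fin x := hx2
    refine ⟨r, hr, (stem x).length, fun n hn v => ?_⟩
    rw [mem_fimp]
    intro s hs hsf
    obtain ⟨t, ht, y, hy, hyn, rfl⟩ := exists_of_meets (hfdown n v) hsf
    obtain ⟨u, hu, z, _, hzx, hzy⟩ := hdir t (ht.trans (hs.trans (hr.trans hq))) x y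
      (down_meets _ _ hx _ (ht.trans hs)) hy
    refine ⟨u, hu.trans ht, ?_⟩
    obtain ⟨_, h5⟩ := hzx
    obtain ⟨⟨h4, _⟩, _⟩ := hzy
    rw [List.prefix_iff_getElem] at h4
    obtain ⟨hle, h4⟩ := h4
    rw [h4 n hyn]
    exact h5 n (hyn.trans_le hle) hn i hx3
  · have h1 := hgen (fun x => D (stem x)) (fun x => hD _) (by
      intro x
      rw [mem_fex]
      intro q hq
      obtain ⟨r, hr, t, ht1, ht2, ht3, ht4⟩ := hDd (fin x) (stem x) (hst x) q hq
      obtain ⟨z, hz1, hz2⟩ := hcode t (fin x) ht2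
      refine ⟨r, hr, z, by simp only [hz1]; exact ht4, meets_of_mem ⟨⟨by rw [hz1]; exact ht1,
        by rw [hz2]⟩, ?_⟩⟩
      rw [hz1]
      exact ht3)
    rw [mem_fex] at h1 ⊢
    intro q hq
    obtain ⟨r, hr, x, h2, h3⟩ := h1 q hq
    exact ⟨r, hr, stem x, hst x, hInit r x h2, h3⟩

end Pool.Agent.NH90.BS
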