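import Pool.Agent.NH90.BS.Reg

open Cardinal

namespace Pool.Agent.NH90.BS

section

variable {W : Type} [LinearOrder W] [WellFoundedLT W]

/-- the data of the hypothesis about the scale and the bounding of short families -/
structure Sc (W : Type) [LinearOrder W] (e : W → ℕ → ℕ) : Prop where
  mono : ∀ β, StrictMono (e β)
  lt : ∀ β α, β < α → ∃ N, ∀ n, N ≤ n → e β n < e α n
  unb : ∀ g : ℕ → ℕ, ∃ α, ∀ N, ∃ n, N ≤ n ∧ g n < e α n
  big : ∀ n α, ∃ α', α ≤ α' ∧ n < e α' 0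
  short : ∀ (γ : W) (g : {β : W // β < γ} → ℕ → ℕ), ∃ h : ℕ → ℕ, ∀ β, ∃ N, ∀ n, N ≤ n → g β n ≤ h n

variable {e : W → ℕ → ℕ}

theorem Sc.le (hS : Sc W e) {β α : W} (h : β ≤ α) : ∃ N, ∀ n, N ≤ n → e β n ≤ e α n := by
  rcases h.lt_or_eq with h | rfl
  · obtain ⟨N, hN⟩ := hS.lt β α h
    exact ⟨N, fun n hn => (hN n hn).le⟩
  · exact ⟨0, fun n _ => le_rfl⟩

/-- an index set is short if all families of functions indexed by it are bounded -/
def Short (I : Type) : Prop := ∀ g : I → ℕ → ℕ, ∃ h : ℕ → ℕ, ∀ i, ∃ N, ∀ n, N ≤ n → g i n ≤ h n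

theorem Short.of_surj {I J : Type} (hI : Short I) (f : I → J) (hf : Function.Surjective f) :
    Short J := by
  intro g
  obtain ⟨h, hh⟩ := hI (fun i => g (f i))
  refine ⟨h, fun j => ?_⟩
  obtain ⟨i, rfl⟩ := hf j
  exact hh i

theorem short_nat : Short ℕ := by
  intro g
  refine ⟨fun n => (Finset.range (n + 1)).sup fun k => g k n, fun i => ⟨i, fun n hn => ?_⟩⟩
  exact Finset.le_sup (f := fun k => g k n) (Finset.mem_range.2 (by omega))

theorem Sc.bdd (hS : Sc W e) {I : Type} (hI : Short I) (r : I → W) : ∃ α, ∀ i, r i < α := by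
  obtain ⟨h, hh⟩ := hI (fun i => e (r i))
  obtain ⟨α, hα⟩ := hS.unb h
  refine ⟨α, fun i => ?_⟩
  by_contra hcon
  rw [not_lt] at hcon
  obtain ⟨N, hN⟩ := hS.le hcon
  obtain ⟨N', hN'⟩ := hh i
  obtain ⟨n, hn, hlt⟩ := hα (max N N')
  have h1 := hN n ((le_max_left _ _).trans hn)
  have h2 := hN' n ((le_max_right _ _).trans hn)
  omega

theorem Sc.nonempty (hS : Sc W e) : Nonempty W := by
  obtain ⟨α, _⟩ := hS.unb (fun _ => 0)
  exact ⟨α⟩

theorem Sc.noMax (hS : Sc W e) (β : W) : ∃ α, β < α := by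
  obtain ⟨α, hα⟩ := hS.bdd short_nat (fun _ => β)
  exact ⟨α, hα 0⟩

theorem Sc.initial (hS : Sc W e) (γ : W) : #{β : W // β < γ} < #W := by
  by_contra hcon
  rw [not_lt] at hcon
  haveI := hS.nonempty
  obtain ⟨f⟩ := hcon
  obtain ⟨α, hα⟩ := hS.bdd (hS.short γ) (Function.invFun f)
  obtain ⟨β, hβ⟩ := Function.invFun_surjective f.injective α
  exact absurd (hα β) (by rw [hβ]; exact lt_irrefl _)

theorem Sc.infinite (hS : Sc W e) : Infinite W := by
  haveI := hS.nonempty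
  haveI : NoMaxOrder W := ⟨hS.noMax⟩
  infer_instance

theorem Sc.short_of_lt (hS : Sc W e) {I : Type} (hI : #I < #W) : Short I := by
  by_cases hne : Nonempty I
  · have h1 : ∃ γ : W, #I ≤ #{β : W // β < γ} := by
      by_contra hcon
      push Not at hcon
      exact absurd (mk_le_of_initial hcon) (not_le.2 hI)
    obtain ⟨γ, ⟨f⟩⟩ := h1
    exact Short.of_surj (hS.short γ) (Function.invFun f) (Function.invFun_surjective f.injective)
  · intro g
    exact ⟨fun _ => 0, fun i => absurd ⟨i⟩ hne⟩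

theorem Sc.short_finset (hS : Sc W e) (γ : W) : Short (Finset {β : W // β < γ}) := by
  apply hS.short_of_lt
  by_cases hfin : Finite {β : W // β < γ}
  · haveI := hfin
    haveI := hS.infinite
    exact (Cardinal.lt_aleph0_of_finite _).trans_le (Cardinal.aleph0_le_mk W)
  · rw [not_finite_iff_infinite] at hfin
    rw [Cardinal.mk_finset_of_infinite]
    exact hS.initial γ

/-- closing off -/
theorem Sc.closed (hS : Sc W e) (Φ : Finset W → W) :
    ∃ γ : W, ∀ F : Finset W, (∀ β ∈ F, β < γ) → Φ F < γ := by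
  classical
  have h1 : ∀ δ : W, ∃ δ' : W, δ < δ' ∧ ∀ F : Finset W, (∀ β ∈ F, β < δ) → Φ F < δ' := by
    intro δ
    obtain ⟨α, hα⟩ := hS.bdd (hS.short_finset δ) (fun F => Φ (F.map (Function.Embedding.subtype _)))
    refine ⟨max α (Classical.choose (hS.noMax δ)), lt_max_of_lt_right
      (Classical.choose_spec (hS.noMax δ)), fun F hF => lt_max_of_lt_left ?_⟩
    have h2 := hα (F.subtype fun β => β < δ)
    have h3 : (F.subtype fun β => β < δ).map (Function.Embedding.subtype _) = F := by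
      rw [Finset.subtype_map]
      exact Finset.filter_true_of_mem hF
    rw [h3] at h2
    exact h2
  choose nx hnx1 hnx2 using h1
  obtain ⟨δ₀⟩ := hS.nonempty
  let δ : ℕ → W := fun n => nx^[n] δ₀
  have hδ : ∀ n, δ (n + 1) = nx (δ n) := fun n => Function.iterate_succ_apply' nx n δ₀
  have hδm : StrictMono δ := strictMono_nat_of_lt_succ fun n => by rw [hδ]; exact hnx1 _
  -- the supremum of the sequence
  obtain ⟨α, hα⟩ := hS.bdd short_nat δ
  let s : Set W := {γ | ∀ n, δ n < γ}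
  have hs : s.Nonempty := ⟨α, hα⟩
  obtain ⟨γ, hγ, hmin⟩ := WellFounded.has_min (wellFounded_lt (α := W)) s hs
  refine ⟨γ, fun F hF => ?_⟩
  have h3 : ∀ β, β < γ → ∃ n, β ≤ δ n := by
    intro β hβ
    by_contra hcon
    push Not at hcon
    exact hmin β hcon hβ
  have h4 : ∀ F : Finset W, (∀ β ∈ F, β < γ) → ∃ n, ∀ β ∈ F, β < δ n := by
    intro F
    induction F using Finset.induction_on with
    | empty => intro _; exact ⟨0, by simp⟩
    | insert a F _ ih =>
      intro h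
      obtain ⟨n, hn⟩ := ih fun β hβ => h β (Finset.mem_insert_of_mem hβ)
      obtain ⟨m, hm⟩ := h3 a (h a (Finset.mem_insert_self a F))
      refine ⟨max n (m + 1), fun β hβ => ?_⟩
      rcases Finset.mem_insert.1 hβ with rfl | hβ
      · exact (hm.trans_lt (hδm (Nat.lt_succ_self m))).trans_le (hδm.monotone (le_max_right _ _))
      · exact (hn β hβ).trans_le (hδm.monotone (le_max_left _ _))
  obtain ⟨n, hn⟩ := h4 F hF
  have h5 := hnx2 (δ n) F hn
  rw [← hδ] at h5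
  exact h5.trans (hγ (n + 1))

/-- the bounding number is the cardinality of `W` -/
theorem Sc.bNum_eq (hS : Sc W e) : bNum = #W := by
  have key : ∀ F : Set (ℕ → ℕ), #F < #W → ∃ g : ℕ → ℕ, ∀ f ∈ F, {n | ¬ f n ≤ g n}.Finite := by
    intro F hF
    obtain ⟨h, hh⟩ := hS.short_of_lt hF (fun f : F => f.1)
    refine ⟨h, fun f hf => ?_⟩
    obtain ⟨N, hN⟩ := hh ⟨f, hf⟩
    refine (Set.finite_Iio N).subset fun n hn => ?_
    by_contra hcon
    exact hn (hN n (not_lt.1 hcon))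
  have hunb : ¬ ∃ g : ℕ → ℕ, ∀ f ∈ Set.range e, {n | ¬ f n ≤ g n}.Finite := by
    rintro ⟨g, hg⟩
    obtain ⟨α, hα⟩ := hS.unb g
    have h1 := hg _ ⟨α, rfl⟩
    obtain ⟨N, hN⟩ := h1.bddAbove
    obtain ⟨n, hn, hlt⟩ := hα (N + 1)
    have := hN (show n ∈ {n | ¬ e α n ≤ g n} from not_le.2 hlt)
    omega
  let S : Set Cardinal.{0} := {κ | ∃ F : Set (ℕ → ℕ), #F = κ ∧
    ¬ ∃ g : ℕ → ℕ, ∀ f ∈ F, {n | ¬ f n ≤ g n}.Finite}
  have hmem : #(Set.range e) ∈ S := ⟨Set.range e, rfl, hunb⟩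
  change sInf S = #W
  apply le_antisymm
  · exact (csInf_le' hmem).trans Cardinal.mk_range_le
  · apply le_csInf ⟨_, hmem⟩
    rintro κ ⟨F, rfl, hF⟩
    by_contra hcon
    exact hF (key F (not_le.1 hcon))

theorem Sc.iso (hS : Sc W e) : Nonempty (bNum.ord.ToType ≃o W) := by
  rw [hS.bNum_eq]
  obtain ⟨f⟩ := exists_iso hS.initial
  exact ⟨f.symm⟩

/-- bounded on an infinite set implies bounded -/
theorem Sc.unb_on (hS : Sc W e) {D : Set ℕ} (hD : D.Infinite) (M : ℕ → ℕ) (α₀ : W)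
    (h : ∀ α, α₀ ≤ α → ∃ N, ∀ n ∈ D, N ≤ n → e α n ≤ M n) : False := by
  have hnext : ∀ n, ∃ m ∈ D, n ≤ m := by
    intro n
    obtain ⟨m, hm, hlt⟩ := hD.exists_gt n
    exact ⟨m, hm, hlt.le⟩
  choose nxt h1 h2 using hnext
  obtain ⟨α, hα⟩ := hS.unb (fun n => M (nxt n))
  obtain ⟨N, hN⟩ := h (max α α₀) (le_max_right _ _)
  obtain ⟨N', hN'⟩ := hS.le (le_max_left α α₀)
  obtain ⟨n, hn, hlt⟩ := hα (max N N')
  have h3 := hN (nxt n) (h1 n) (((le_max_left _ _).trans hn).trans (h2 n))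
  have h4 := hN' n ((le_max_right _ _).trans hn)
  have h5 := (hS.mono (max α α₀)).monotone (h2 n)
  omega

end

end Pool.Agent.NH90.BS
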